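import Mathlib

namespace Pool.Agent.R263.ST

open MeasureTheory Set Metric
open scoped ContDiff ENNReal

/-! ## The problem (the plane is `ℂ`) -/

/-- Test functions: smooth real functions on the plane with compact support inside `Ω`. -/
def Test (Ω : Set ℂ) (v : ℂ → ℝ) : Prop :=
  ContDiff ℝ ∞ v ∧ HasCompactSupport v ∧ tsupport v ⊆ Ω

/-- The Rayleigh quotient. The operator norm of `fderiv ℝ v z : ℂ →L[ℝ] ℝ` is the Euclidean norm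
of the gradient of `v` at `z`. -/
noncomputable def quot (Ω : Set ℂ) (m : ℝ) (μ : Measure ℂ) (v : ℂ → ℝ) : ℝ :=
  ((∫ z in Ω, ‖fderiv ℝ v z‖ ^ 2) + m * ∫ z, ‖fderiv ℝ v z‖ ^ 2 ∂μ) / ∫ z in Ω, v z ^ 2

/-- `λ₁(μ)`. -/
noncomputable def lam (Ω : Set ℂ) (m : ℝ) (μ : Measure ℂ) : ℝ :=
  sInf {q : ℝ | ∃ v : ℂ → ℝ, Test Ω v ∧ v ≠ 0 ∧ q = quot Ω m μ v}

/-- The class of admissible measures. -/
structure Adm (Ω : Set ℂ) (L : ℝ) (μ : Measure ℂ) : Prop where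
  onClosure : μ (closure Ω)ᶜ = 0
  mass : μ univ ≤ ENNReal.ofReal L
  conn : IsConnected μ.support
  ge : (μH[1] : Measure ℂ).restrict μ.support ≤ μ

/-! ## The first eigenfunction of the disk -/

/-- `G j t = Σ_k (-1)^(k+j) t^k/(k! (k+j)!)`. -/
noncomputable def G (j : ℕ) (t : ℝ) : ℝ :=
  ∑' k : ℕ, (-1 : ℝ) ^ (k + j) * t ^ k / ((k.factorial : ℝ) * ((k + j).factorial : ℝ))

/-- `u z = J₀(‖z‖)`. -/
noncomputable def u (z : ℂ) : ℝ := G 0 (‖z‖ ^ 2 / 4)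

/-- `T` is the first zero of `G 0`. -/
structure Good (T : ℝ) : Prop where
  pos : 0 < T
  zero : G 0 T = 0
  g_pos : ∀ t ∈ Ico 0 T, 0 < G 0 t
  g1_neg : ∀ t ∈ Icc 0 T, G 1 t < 0
  ex : ∃ t0 ∈ Ioo 0 T, T * G 1 T ^ 2 < t0 * G 1 t0 ^ 2

/-- The disk. -/
noncomputable def D (T : ℝ) : Set ℂ := ball 0 (2 * √T)

/-- The profile of `u` along the positive real axis. -/
noncomputable def U (s : ℝ) : ℝ := u (s : ℂ)

/-- Competitor: mass `L` spread uniformly over the segment `[a,b]` of the real axis. -/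
noncomputable def comp (L a b : ℝ) : Measure ℂ :=
  ENNReal.ofReal (L / (b - a)) • ((volume : Measure ℝ).restrict (Icc a b)).map (fun s : ℝ => (s : ℂ))

/-! ## Statements of the pieces -/

/-- A0: norm of the derivative. -/
def StmtA0 : Prop :=
  ∀ (l : ℂ →L[ℝ] ℝ), ‖l‖ ^ 2 = l 1 ^ 2 + l Complex.I ^ 2

/-- A1: calculus of `G`. -/
def StmtA1 : Prop :=
  (∀ j t, HasDerivAt (G j) (G (j + 1) t) t) ∧ (∀ t, t * G 2 t + G 1 t + G 0 t = 0) ∧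
    G 0 0 = 1 ∧ ∃ T, Good T

/-- A2: calculus of `u`. -/
def StmtA2 : Prop :=
  ContDiff ℝ ∞ u ∧
  (∀ z : ℂ, ‖fderiv ℝ u z‖ ^ 2 = (‖z‖ ^ 2 / 4) * G 1 (‖z‖ ^ 2 / 4) ^ 2) ∧
  (∀ w : ℂ → ℝ, ContDiff ℝ ∞ w → HasCompactSupport w →
    ∫ z, (fderiv ℝ u z 1 * fderiv ℝ w z 1 + fderiv ℝ u z Complex.I * fderiv ℝ w z Complex.I)
      = ∫ z, u z * w z)

/-- A3: Picone identity. -/
def StmtA3 : Prop :=
  ∀ f : ℂ → ℝ, ContDiff ℝ ∞ f → HasCompactSupport f →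
    (∫ z, ‖fderiv ℝ (fun y => u y * f y) z‖ ^ 2) - (∫ z, (u z * f z) ^ 2)
      = ∫ z, u z ^ 2 * ‖fderiv ℝ f z‖ ^ 2

/-- B1: one-dimensional inequality on the segment. -/
def StmtB1 : Prop :=
  ∀ (a b : ℝ) (V φ f : ℝ → ℝ), a < b → ContDiff ℝ ∞ V → ContDiff ℝ ∞ φ → ContDiff ℝ ∞ f →
    tsupport φ ⊆ Ioo a b → (∀ s, 0 ≤ φ s) → (∀ s, φ s ≤ 1) →
    ∫ s in a..b, (-(V s) * deriv (fun x => φ x * deriv V x) s) * f s ^ 2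
      ≤ ∫ s in a..b, (deriv (fun x => V x * f x) s) ^ 2

/-- B2: transport lemma. -/
def StmtB2 : Prop :=
  ∀ (T : ℝ), Good T → ∀ (h : ℝ → ℝ) (a b K : ℝ), Continuous h → 0 < a → a < b → b < 2 * √T →
    (∀ s, s ∉ Ioo a b → h s = 0) → K * (∫ z in D T, u z ^ 2) = ∫ s in a..b, h s →
    ∃ C : ℝ, 0 ≤ C ∧ ∀ F : ℂ → ℝ, Test (D T) F →
      |(∫ s in a..b, h s * F (s : ℂ)) - K * ∫ z, u z ^ 2 * F z|
        ≤ C * ∫ z, u z ^ 2 * ‖fderiv ℝ F z‖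

/-- C: touching measures. -/
def StmtC : Prop :=
  ∀ (T : ℝ), Good T → ∀ (Gm t0 : ℝ), t0 ∈ Ioo 0 T → Gm = t0 * G 1 t0 ^ 2 →
    (∀ t ∈ Icc 0 T, t * G 1 t ^ 2 ≤ Gm) → ∀ L : ℝ, 0 < L →
    ∃ c : ℝ, 0 < c ∧ ∀ μ : Measure ℂ, Adm (D T) L μ → (μ.support ∩ frontier (D T)).Nonempty →
      ∫ z, ‖fderiv ℝ u z‖ ^ 2 ∂μ ≤ L * Gm - c

/-- D0: the competitor is admissible, lives inside, and integrates as expected. -/
def StmtD : Prop :=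
  ∀ (T L a b : ℝ), 0 < T → 0 < L → 0 < a → a < b → b < 2 * √T → b - a ≤ L →
    Adm (D T) L (comp L a b) ∧ (comp L a b).support ⊆ D T ∧
    ∀ F : ℂ → ℝ, Continuous F → ∫ z, F z ∂(comp L a b) = L / (b - a) * ∫ s in a..b, F (s : ℂ)

/-- E: upper bound for every admissible measure. -/
def StmtE : Prop :=
  ∀ (T : ℝ), Good T → ∀ (L m : ℝ), 0 < L → 0 < m → ∀ μ : Measure ℂ, Adm (D T) L μ →
    lam (D T) m μ ≤ 1 + m * (∫ z, ‖fderiv ℝ u z‖ ^ 2 ∂μ) / ∫ z in D T, u z ^ 2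

/-- Low: lower bound for the competitor. -/
def StmtLow : Prop :=
  ∀ (T : ℝ), Good T → ∀ (L a b : ℝ), 0 < L → 0 < a → a < b → b < 2 * √T → b - a ≤ L →
    ∀ φ : ℝ → ℝ, ContDiff ℝ ∞ φ → tsupport φ ⊆ Ioo a b → (∀ s, 0 ≤ φ s) → (∀ s, φ s ≤ 1) →
    ∃ C : ℝ, ∀ m : ℝ, 0 < m →
      1 + m * (L / (b - a) * ∫ s in a..b, φ s * deriv U s ^ 2) / (∫ z in D T, u z ^ 2)
        - m ^ 2 * C ≤ lam (D T) m (comp L a b)

/-- Main theorem. -/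
def StmtMain : Prop :=
  ∃ R : ℝ, 0 < R ∧ ∀ L : ℝ, 0 < L → ∃ m0 : ℝ, 0 < m0 ∧ ∀ m : ℝ, 0 < m → m < m0 →
    ∃ μ0 : Measure ℂ, Adm (ball 0 R) L μ0 ∧ μ0.support ⊆ ball 0 R ∧ ∃ δ : ℝ, 0 < δ ∧
      ∀ μ : Measure ℂ, Adm (ball 0 R) L μ → (μ.support ∩ frontier (ball (0 : ℂ) R)).Nonempty →
        lam (ball 0 R) m μ + δ ≤ lam (ball 0 R) m μ0

end Pool.Agent.R263.ST
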