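import Mathlib
import Pool.Agent.R263.ST.Defs

set_option maxHeartbeats 1000000

namespace Pool.Agent.R263.ST

open MeasureTheory Set Metric
open scoped ContDiff ENNReal

theorem fin_U_eq (s : ℝ) : U s = G 0 (s ^ 2 / 4) := by
  unfold U u
  rw [Complex.norm_real, Real.norm_eq_abs, sq_abs]

theorem fin_deriv_U (h1 : StmtA1) (s : ℝ) : deriv U s ^ 2 = (s ^ 2 / 4) * G 1 (s ^ 2 / 4) ^ 2 := by
  have hU : U = fun s : ℝ => G 0 (s ^ 2 / 4) := funext fin_U_eq
  have h2 : HasDerivAt (fun s : ℝ => s ^ 2 / 4) (s / 2) s := by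
    have h : HasDerivAt (fun s : ℝ => s ^ 2 / 4) (((2 : ℕ) : ℝ) * s ^ (2 - 1) / 4) s :=
      (hasDerivAt_pow 2 s).div_const 4
    have h' : ((2 : ℕ) : ℝ) * s ^ (2 - 1) / 4 = s / 2 := by
      norm_num
      ring
    rw [← h']
    exact h
  have h3 : HasDerivAt U (G 1 (s ^ 2 / 4) * (s / 2)) s := by
    rw [hU]
    exact (h1.1 0 (s ^ 2 / 4)).comp s h2
  rw [h3.deriv]
  ring

theorem fin_cont_G (h1 : StmtA1) (j : ℕ) : Continuous (G j) :=
  continuous_iff_continuousAt.2 fun t => (h1.1 j t).continuousAt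

theorem fin_cont_u (h1 : StmtA1) : Continuous u := by
  unfold u
  exact (fin_cont_G h1 0).comp (by fun_prop)

theorem fin_I_pos (h1 : StmtA1) {T : ℝ} (hT : Good T) : 0 < ∫ z in D T, u z ^ 2 := by
  have hTp := hT.pos
  have hR : 0 < 2 * √T := by positivity
  have hcont : Continuous (fun z : ℂ => u z ^ 2) := (fin_cont_u h1).pow 2
  have hint : IntegrableOn (fun z : ℂ => u z ^ 2) (D T) volume := by
    have h4 : IntegrableOn (fun z : ℂ => u z ^ 2) (closedBall (0 : ℂ) (2 * √T)) volume :=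
      hcont.continuousOn.integrableOn_compact (isCompact_closedBall _ _)
    exact h4.mono_set ball_subset_closedBall
  have hpos : ∀ z ∈ D T, 0 < u z ^ 2 := by
    intro z hz
    have hz' : ‖z‖ < 2 * √T := by simpa [D] using hz
    have h5 : ‖z‖ ^ 2 / 4 < T := by
      have h6 : ‖z‖ ^ 2 < (2 * √T) ^ 2 := by
        apply pow_lt_pow_left₀ hz' (norm_nonneg _) (by norm_num)
      rw [mul_pow, Real.sq_sqrt hTp.le] at h6
      linarith
    have h7 : 0 < u z := hT.g_pos _ ⟨by positivity, h5⟩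
    positivity
  rw [MeasureTheory.setIntegral_pos_iff_support_of_nonneg_ae]
  · have h8 : D T ⊆ Function.support (fun z : ℂ => u z ^ 2) ∩ D T := fun z hz =>
      ⟨(hpos z hz).ne', hz⟩
    refine lt_of_lt_of_le ?_ (measure_mono h8)
    exact measure_ball_pos _ _ hR
  · exact Filter.Eventually.of_forall fun z => by positivity
  · exact hint

theorem stmtMain (h1 : StmtA1) (hC : StmtC) (hD : StmtD) (hE : StmtE)
    (hLow : StmtLow) : StmtMain := by
  have hcG := fin_cont_G h1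
  obtain ⟨T, hT⟩ := h1.2.2.2
  have hTp := hT.pos
  have hR : 0 < 2 * √T := by positivity
  have hPc : Continuous (fun t : ℝ => t * G 1 t ^ 2) := continuous_id.mul ((hcG 1).pow 2)
  obtain ⟨t0, ht0, hmax⟩ := isCompact_Icc.exists_isMaxOn (nonempty_Icc.2 hTp.le) hPc.continuousOn
  have hmax' : ∀ t ∈ Icc 0 T, t * G 1 t ^ 2 ≤ t0 * G 1 t0 ^ 2 := fun t ht => hmax ht
  obtain ⟨t1, ht1, hlt⟩ := hT.ex
  have hlt2 : T * G 1 T ^ 2 < t0 * G 1 t0 ^ 2 := lt_of_lt_of_le hlt (hmax' t1 ⟨ht1.1.le, ht1.2.le⟩)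
  have hGmpos : 0 < t0 * G 1 t0 ^ 2 := lt_of_le_of_lt (by positivity) hlt2
  have ht0pos : 0 < t0 := by
    rcases ht0.1.lt_or_eq with h | h
    · exact h
    · rw [← h] at hGmpos
      simp at hGmpos
  have ht0lt : t0 < T := by
    rcases ht0.2.lt_or_eq with h | h
    · exact h
    · rw [h] at hlt2
      exact absurd hlt2 (lt_irrefl _)
  obtain ⟨Gm, hGm⟩ : ∃ Gm, Gm = t0 * G 1 t0 ^ 2 := ⟨_, rfl⟩
  rw [← hGm] at hGmpos hlt2
  refine ⟨2 * √T, hR, ?_⟩
  intro L hL
  obtain ⟨c0, hc0, hc0'⟩ := hC T hT Gm t0 ⟨ht0pos, ht0lt⟩ hGm (by rw [hGm]; exact hmax') L hL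
  obtain ⟨c, hcdef⟩ : ∃ c, c = min c0 (L * Gm) := ⟨_, rfl⟩
  have hcpos : 0 < c := by rw [hcdef]; exact lt_min hc0 (by positivity)
  have hcc0 : c ≤ c0 := by rw [hcdef]; exact min_le_left _ _
  have hcLG : c ≤ L * Gm := by rw [hcdef]; exact min_le_right _ _
  -- the point of maximal slope
  obtain ⟨s0, hs0⟩ : ∃ s0, s0 = 2 * √t0 := ⟨_, rfl⟩
  have hs0pos : 0 < s0 := by rw [hs0]; positivity
  have hs0lt : s0 < 2 * √T := by
    rw [hs0]
    have := Real.sqrt_lt_sqrt ht0pos.le ht0lt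
    linarith
  have hs0sq : s0 ^ 2 / 4 = t0 := by
    rw [hs0, mul_pow, Real.sq_sqrt ht0pos.le]
    ring
  have hqc : Continuous (fun s : ℝ => (s ^ 2 / 4) * G 1 (s ^ 2 / 4) ^ 2) :=
    hPc.comp (by fun_prop : Continuous fun s : ℝ => s ^ 2 / 4)
  have hqd : ∀ s, deriv U s ^ 2 = (s ^ 2 / 4) * G 1 (s ^ 2 / 4) ^ 2 := fin_deriv_U h1
  have hq0 : (s0 ^ 2 / 4) * G 1 (s0 ^ 2 / 4) ^ 2 = Gm := by rw [hs0sq, hGm]
  obtain ⟨δ, hδ, hδ'⟩ := Metric.continuousAt_iff.1 (hqc.continuousAt (x := s0)) (c / (4 * L))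
    (by positivity)
  obtain ⟨ε, hε⟩ : ∃ ε, ε = min (min δ (s0 / 2)) (min ((2 * √T - s0) / 2) (L / 2)) := ⟨_, rfl⟩
  have hεpos : 0 < ε := by
    rw [hε]
    refine lt_min (lt_min hδ (by positivity)) (lt_min (by linarith) (by positivity))
  have hε1 : ε ≤ δ := by rw [hε]; exact (min_le_left _ _).trans (min_le_left _ _)
  have hε2 : ε ≤ s0 / 2 := by rw [hε]; exact (min_le_left _ _).trans (min_le_right _ _)
  have hε3 : ε ≤ (2 * √T - s0) / 2 := by rw [hε]; exact (min_le_right _ _).trans (min_le_left _ _)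
  have hε4 : ε ≤ L / 2 := by rw [hε]; exact (min_le_right _ _).trans (min_le_right _ _)
  obtain ⟨a, ha⟩ : ∃ a, a = s0 - ε := ⟨_, rfl⟩
  obtain ⟨b, hb⟩ : ∃ b, b = s0 + ε := ⟨_, rfl⟩
  have hapos : 0 < a := by rw [ha]; linarith
  have hab : a < b := by rw [ha, hb]; linarith
  have hbR : b < 2 * √T := by rw [hb]; linarith
  have hbaL : b - a ≤ L := by rw [ha, hb]; linarith
  have hba : b - a = 2 * ε := by rw [ha, hb]; ring
  obtain ⟨η, hη⟩ : ∃ η, η = c / (4 * (L * Gm)) := ⟨_, rfl⟩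
  have hηpos : 0 < η := by rw [hη]; positivity
  have hηle : η ≤ 1 / 4 := by
    rw [hη, div_le_iff₀ (by positivity)]
    linarith
  have hηe : η * (L * Gm) = c / 4 := by
    rw [hη]; field_simp
  obtain ⟨f, hfin, hfout⟩ : ∃ f : ContDiffBump s0, f.rIn = ε * (1 - η) ∧
      f.rOut = ε * (1 - η / 2) :=
    ⟨⟨ε * (1 - η), ε * (1 - η / 2), by nlinarith, by nlinarith⟩, rfl, rfl⟩
  have hφs : tsupport f ⊆ Ioo a b := by
    rw [f.tsupport_eq, Real.closedBall_eq_Icc, ha, hb, hfout]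
    have h9 : ε * (1 - η / 2) < ε := by nlinarith
    intro x hx
    have hx1 : s0 - ε * (1 - η / 2) ≤ x := hx.1
    have hx2 : x ≤ s0 + ε * (1 - η / 2) := hx.2
    exact ⟨by linarith, by linarith⟩
  obtain ⟨C, hClow⟩ := hLow T hT L a b hL hapos hab hbR hbaL f f.contDiff hφs
    (fun s => f.nonneg) (fun s => f.le_one)
  have hI := fin_I_pos h1 hT
  obtain ⟨I, hIdef⟩ : ∃ I, I = ∫ z in D T, u z ^ 2 := ⟨_, rfl⟩
  rw [← hIdef] at hI
  -- the integral of φ U'^2
  have hlowint : 2 * (ε * (1 - η)) * (Gm - c / (4 * L)) ≤ ∫ s in a..b, f s * deriv U s ^ 2 := by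
    have hfun : (fun s => f s * deriv U s ^ 2) =
        fun s => f s * ((s ^ 2 / 4) * G 1 (s ^ 2 / 4) ^ 2) := by
      funext s; rw [hqd]
    rw [hfun]
    have hcontf : Continuous (fun s => f s * ((s ^ 2 / 4) * G 1 (s ^ 2 / 4) ^ 2)) :=
      f.continuous.mul hqc
    have hnn : ∀ s, 0 ≤ f s * ((s ^ 2 / 4) * G 1 (s ^ 2 / 4) ^ 2) := fun s =>
      mul_nonneg f.nonneg (by positivity)
    have hr : 0 < ε * (1 - η) := by apply mul_pos hεpos; linarith
    have hrε : ε * (1 - η) < ε := by nlinarith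
    have h10 : ∫ s in (s0 - ε * (1 - η))..(s0 + ε * (1 - η)), (Gm - c / (4 * L)) ≤
        ∫ s in (s0 - ε * (1 - η))..(s0 + ε * (1 - η)),
          f s * ((s ^ 2 / 4) * G 1 (s ^ 2 / 4) ^ 2) := by
      apply intervalIntegral.integral_mono_on (by linarith)
      · exact intervalIntegrable_const
      · exact hcontf.intervalIntegrable _ _
      · intro x hx
        have hf1 : f x = 1 := by
          apply f.one_of_mem_closedBall
          rw [Real.closedBall_eq_Icc, hfin]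
          exact hx
        rw [hf1, one_mul]
        have hd : dist x s0 < δ := by
          rw [Real.dist_eq, abs_lt]
          constructor
          · have := hx.1; linarith
          · have := hx.2; linarith
        have h11 := hδ' hd
        rw [Real.dist_eq, hq0, abs_lt] at h11
        linarith [h11.1]
    rw [intervalIntegral.integral_const, smul_eq_mul] at h10
    have h12 : ∫ s in (s0 - ε * (1 - η))..(s0 + ε * (1 - η)),
          f s * ((s ^ 2 / 4) * G 1 (s ^ 2 / 4) ^ 2) ≤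
        ∫ s in a..b, f s * ((s ^ 2 / 4) * G 1 (s ^ 2 / 4) ^ 2) := by
      apply intervalIntegral.integral_mono_interval (by rw [ha]; linarith) (by linarith)
        (by rw [hb]; linarith)
      · exact Filter.Eventually.of_forall fun s => hnn s
      · exact hcontf.intervalIntegrable _ _
    calc 2 * (ε * (1 - η)) * (Gm - c / (4 * L))
        = (s0 + ε * (1 - η) - (s0 - ε * (1 - η))) * (Gm - c / (4 * L)) := by ring
      _ ≤ _ := h10.trans h12
  have hmass : L * Gm - c / 2 ≤ L / (b - a) * ∫ s in a..b, f s * deriv U s ^ 2 := by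
    have h13 : L / (b - a) * (2 * (ε * (1 - η)) * (Gm - c / (4 * L))) ≤
        L / (b - a) * ∫ s in a..b, f s * deriv U s ^ 2 :=
      mul_le_mul_of_nonneg_left hlowint (div_nonneg hL.le (by linarith))
    have h14 : L / (b - a) * (2 * (ε * (1 - η)) * (Gm - c / (4 * L)))
        = (1 - η) * (L * Gm - c / 4) := by
      rw [hba]; field_simp
    rw [h14] at h13
    refine le_trans ?_ h13
    have : (1 - η) * (L * Gm - c / 4) = L * Gm - c / 4 - c / 4 + η * (c / 4) := by
      have : (1 - η) * (L * Gm - c / 4) = L * Gm - c / 4 - η * (L * Gm) + η * (c / 4) := by ring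
      rw [this, hηe]
    rw [this]
    have : 0 ≤ η * (c / 4) := by positivity
    linarith
  obtain ⟨C', hC'⟩ : ∃ C', C' = max C 1 := ⟨_, rfl⟩
  have hC'pos : 0 < C' := by rw [hC']; exact lt_of_lt_of_le one_pos (le_max_right _ _)
  have hCC' : C ≤ C' := by rw [hC']; exact le_max_left _ _
  refine ⟨c / (4 * I * C'), by positivity, ?_⟩
  intro m hm hm0
  obtain ⟨hadm, hsup, -⟩ := hD T L a b hTp hL hapos hab hbR hbaL
  refine ⟨comp L a b, hadm, hsup, m * c / (4 * I), by positivity, ?_⟩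
  intro μ hμ htouch
  have hup := hE T hT L m hL hm μ hμ
  have hint := hc0' μ hμ htouch
  have hlow := hClow m hm
  rw [← hIdef] at hup hlow
  have hup' : lam (D T) m μ ≤ 1 + m * (L * Gm - c) / I := by
    refine hup.trans ?_
    have : m * (∫ z, ‖fderiv ℝ u z‖ ^ 2 ∂μ) / I ≤ m * (L * Gm - c) / I := by
      apply div_le_div_of_nonneg_right _ hI.le
      apply mul_le_mul_of_nonneg_left _ hm.le
      linarith
    linarith
  have hlow' : 1 + m * (L * Gm - c / 2) / I - m ^ 2 * C' ≤ lam (D T) m (comp L a b) := by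
    refine le_trans ?_ hlow
    have h15 : m * (L * Gm - c / 2) / I ≤
        m * (L / (b - a) * ∫ s in a..b, f s * deriv U s ^ 2) / I := by
      apply div_le_div_of_nonneg_right _ hI.le
      exact mul_le_mul_of_nonneg_left hmass hm.le
    have h16 : m ^ 2 * C ≤ m ^ 2 * C' := mul_le_mul_of_nonneg_left hCC' (by positivity)
    linarith
  have hfinal : m * C' ≤ c / (4 * I) := by
    have h17 : m * C' ≤ c / (4 * I * C') * C' := mul_le_mul_of_nonneg_right hm0.le hC'pos.le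
    have h18 : c / (4 * I * C') * C' = c / (4 * I) := by field_simp
    linarith
  have h19 : m ^ 2 * C' ≤ m * (c / (4 * I)) := by
    have := mul_le_mul_of_nonneg_left hfinal hm.le
    calc m ^ 2 * C' = m * (m * C') := by ring
      _ ≤ _ := this
  have h20 : m * (L * Gm - c / 2) / I = m * (L * Gm - c) / I + 2 * (m * (c / (4 * I))) := by
    field_simp
    ring
  have h21 : m * c / (4 * I) = m * (c / (4 * I)) := by ring
  change lam (D T) m μ + m * c / (4 * I) ≤ lam (D T) m (comp L a b)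
  rw [h21]
  linarith

end Pool.Agent.R263.ST
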