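import Mathlib
import Pool.Agent.R263.ST.Defs

/-!
# MP_a4170f_an, pieces A0 and A1: norm of the derivative, calculus of the Bessel-type series
-/

namespace Pool.Agent.R263.ST

open MeasureTheory Set Metric Filter Topology
open scoped ContDiff ENNReal

theorem stmtA0 : StmtA0 := by
  intro l
  set a := l 1 with ha
  set b := l Complex.I with hb
  have hl : ∀ z : ℂ, l z = a * z.re + b * z.im := by
    intro z
    have h : z = z.re • (1 : ℂ) + z.im • Complex.I := by
      simp [Complex.re_add_im]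
    conv_lhs => rw [h]
    rw [map_add, map_smul, map_smul, smul_eq_mul, smul_eq_mul]
    ring
  have hz : ∀ z : ℂ, ‖z‖ ^ 2 = z.re ^ 2 + z.im ^ 2 := by
    intro z
    rw [Complex.sq_norm, Complex.normSq_apply]
    ring
  have hM : ‖l‖ = √(a ^ 2 + b ^ 2) := by
    apply ContinuousLinearMap.opNorm_eq_of_bounds (Real.sqrt_nonneg _)
    · intro z
      rw [hl, Real.norm_eq_abs]
      apply abs_le_of_sq_le_sq _ (by positivity)
      rw [mul_pow, Real.sq_sqrt (by positivity), hz]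
      nlinarith [sq_nonneg (a * z.im - b * z.re)]
    · intro N hN h
      have h1 := h (⟨a, b⟩ : ℂ)
      rw [hl, Real.norm_eq_abs] at h1
      simp only at h1
      have h2 : ‖(⟨a, b⟩ : ℂ)‖ = √(a ^ 2 + b ^ 2) := by
        rw [← Real.sqrt_sq (norm_nonneg (⟨a, b⟩ : ℂ)), hz]
      rw [h2, show a * a + b * b = √(a ^ 2 + b ^ 2) ^ 2 by
        rw [Real.sq_sqrt (by positivity)]; ring, abs_of_nonneg (by positivity)] at h1
      rcases eq_or_lt_of_le (Real.sqrt_nonneg (a ^ 2 + b ^ 2)) with h3 | h3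
      · rw [← h3]; exact hN
      · nlinarith
  rw [hM, Real.sq_sqrt (by positivity)]

/-- coefficients -/
noncomputable def S1c (j k : ℕ) : ℝ := (-1 : ℝ) ^ (k + j) / ((k.factorial : ℝ) * ((k + j).factorial : ℝ))

lemma S1_G_eq (j : ℕ) (t : ℝ) : G j t = ∑' k : ℕ, S1c j k * t ^ k := by
  unfold G S1c
  apply tsum_congr
  intro k
  ring

lemma S1c_abs (j k : ℕ) : |S1c j k| ≤ 1 / (k.factorial : ℝ) := by
  unfold S1c
  rw [abs_div, abs_pow, abs_neg, abs_one, one_pow]
  have h1 : (1 : ℝ) ≤ ((k + j).factorial : ℝ) := by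
    exact_mod_cast Nat.one_le_iff_ne_zero.2 (Nat.factorial_ne_zero _)
  have h2 : (0 : ℝ) < (k.factorial : ℝ) := by exact_mod_cast Nat.factorial_pos k
  rw [abs_of_pos (by positivity)]
  apply div_le_div_of_nonneg_left (by norm_num) h2
  nlinarith

lemma S1_summable (j : ℕ) (t : ℝ) : Summable (fun k => S1c j k * t ^ k) := by
  apply Summable.of_norm_bounded (Real.summable_pow_div_factorial |t|)
  intro k
  rw [Real.norm_eq_abs, abs_mul, abs_pow]
  have := S1c_abs j k
  calc |S1c j k| * |t| ^ k ≤ 1 / (k.factorial : ℝ) * |t| ^ k := by gcongr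
    _ = |t| ^ k / k.factorial := by ring

lemma S1c_succ (j k : ℕ) : ((k : ℝ) + 1) * S1c j (k + 1) = S1c (j + 1) k := by
  unfold S1c
  rw [show k + 1 + j = k + (j + 1) by ring, Nat.factorial_succ k]
  push_cast
  have h1 : ((k : ℝ) + 1) ≠ 0 := by positivity
  have h2 : (k.factorial : ℝ) ≠ 0 := by exact_mod_cast Nat.factorial_ne_zero k
  have h3 : ((k + (j + 1)).factorial : ℝ) ≠ 0 := by exact_mod_cast Nat.factorial_ne_zero _
  field_simp

lemma S1_deriv (j : ℕ) (t : ℝ) : HasDerivAt (G j) (G (j + 1) t) t := by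
  have hG : G j = fun z => ∑' k : ℕ, S1c j k * z ^ k := by
    ext z
    exact S1_G_eq j z
  set r := |t| + 1 with hr
  have hr0 : 0 < r := by positivity
  have hu : Summable (fun n : ℕ => (n : ℝ) * r ^ (n - 1) / (n.factorial : ℝ)) := by
    rw [← summable_nat_add_iff 1]
    apply (Real.summable_pow_div_factorial r).congr
    intro n
    have h2 : (n.factorial : ℝ) ≠ 0 := by exact_mod_cast Nat.factorial_ne_zero n
    have h1 : ((n : ℝ) + 1) ≠ 0 := by positivity
    rw [Nat.factorial_succ, Nat.add_sub_cancel]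
    push_cast
    field_simp
  have key := hasDerivAt_tsum_of_isPreconnected (g := fun (k : ℕ) (z : ℝ) => S1c j k * z ^ k)
    (g' := fun (k : ℕ) (z : ℝ) => S1c j k * (k * z ^ (k - 1))) (t := ball (0 : ℝ) r) hu isOpen_ball
    (convex_ball (0 : ℝ) r).isPreconnected
    (fun n y _ => (hasDerivAt_pow n y).const_mul _)
    (by
      intro n y hy
      rw [mem_ball_zero_iff, Real.norm_eq_abs] at hy
      rw [Real.norm_eq_abs, abs_mul, abs_mul, abs_pow, Nat.abs_cast]
      have := S1c_abs j n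
      calc |S1c j n| * ((n : ℝ) * |y| ^ (n - 1)) ≤ 1 / (n.factorial : ℝ) * (n * r ^ (n - 1)) := by
            gcongr
        _ = n * r ^ (n - 1) / n.factorial := by ring)
    (y₀ := 0) (by simpa using hr0) (S1_summable j 0) (y := t)
    (by rw [mem_ball_zero_iff, Real.norm_eq_abs]; linarith)
  rw [hG]
  refine HasDerivAt.congr_deriv key ?_
  have hs : Summable (fun k : ℕ => S1c j k * (k * t ^ (k - 1))) := by
    rw [← summable_nat_add_iff 1]
    apply (S1_summable (j + 1) t).congr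
    intro n
    rw [← S1c_succ, Nat.add_sub_cancel]
    push_cast
    ring
  rw [hs.tsum_eq_zero_add, S1_G_eq]
  simp only [Nat.cast_zero, zero_mul, mul_zero, zero_add]
  apply tsum_congr
  intro n
  rw [← S1c_succ, Nat.add_sub_cancel]
  push_cast
  ring

lemma S1_zero (j : ℕ) : G j 0 = S1c j 0 := by
  rw [S1_G_eq, tsum_eq_single 0]
  · simp
  · intro k hk
    simp [hk]

lemma S1_ode (t : ℝ) : t * G 2 t + G 1 t + G 0 t = 0 := by
  have h2 : t * G 2 t = ∑' k : ℕ, S1c 2 k * t ^ (k + 1) := by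
    rw [S1_G_eq, ← tsum_mul_left]
    apply tsum_congr
    intro k
    ring
  have s2 : Summable (fun k => S1c 2 k * t ^ (k + 1)) := by
    apply ((S1_summable 2 t).mul_left t).congr
    intro k
    ring
  have h1 : G 1 t = S1c 1 0 + ∑' k : ℕ, S1c 1 (k + 1) * t ^ (k + 1) := by
    rw [S1_G_eq, (S1_summable 1 t).tsum_eq_zero_add]
    simp
  have h0 : G 0 t = S1c 0 0 + ∑' k : ℕ, S1c 0 (k + 1) * t ^ (k + 1) := by
    rw [S1_G_eq, (S1_summable 0 t).tsum_eq_zero_add]
    simp
  have s1 : Summable (fun k => S1c 1 (k + 1) * t ^ (k + 1)) :=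
    (summable_nat_add_iff 1).2 (S1_summable 1 t)
  have s0 : Summable (fun k => S1c 0 (k + 1) * t ^ (k + 1)) :=
    (summable_nat_add_iff 1).2 (S1_summable 0 t)
  have hsum : (∑' k : ℕ, S1c 2 k * t ^ (k + 1)) + (∑' k : ℕ, S1c 1 (k + 1) * t ^ (k + 1)) +
      (∑' k : ℕ, S1c 0 (k + 1) * t ^ (k + 1)) = 0 := by
    rw [← s2.tsum_add s1, ← (s2.add s1).tsum_add s0]
    rw [← tsum_zero (α := ℝ) (β := ℕ)]
    apply tsum_congr
    intro k
    have hc : S1c 2 k + S1c 1 (k + 1) + S1c 0 (k + 1) = 0 := by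
      unfold S1c
      have e1 : ((k + 2).factorial : ℝ) = (k + 2) * ((k + 1) * k.factorial) := by
        rw [Nat.factorial_succ, Nat.factorial_succ]; push_cast; ring
      have e2 : ((k + 1).factorial : ℝ) = (k + 1) * k.factorial := by
        rw [Nat.factorial_succ]; push_cast; ring
      rw [show k + 1 + 1 = k + 2 by ring, show k + 1 + 0 = k + 1 by ring, e1, e2]
      have h1 : ((k : ℝ) + 1) ≠ 0 := by positivity
      have h1' : ((k : ℝ) + 2) ≠ 0 := by positivity
      have h2 : (k.factorial : ℝ) ≠ 0 := by exact_mod_cast Nat.factorial_ne_zero k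
      field_simp
      ring
    calc S1c 2 k * t ^ (k + 1) + S1c 1 (k + 1) * t ^ (k + 1) + S1c 0 (k + 1) * t ^ (k + 1)
        = (S1c 2 k + S1c 1 (k + 1) + S1c 0 (k + 1)) * t ^ (k + 1) := by ring
      _ = 0 := by rw [hc, zero_mul]
  have hc0 : S1c 1 0 + S1c 0 0 = 0 := by
    unfold S1c
    norm_num
  rw [h2, h1, h0]
  linarith

lemma S1_fact (k : ℕ) : (24 : ℝ) * 2 ^ k ≤ ((k + 4).factorial : ℝ) := by
  induction k with
  | zero => norm_num [Nat.factorial]
  | succ k ih =>
    rw [show k + 1 + 4 = (k + 4) + 1 by ring, Nat.factorial_succ]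
    push_cast
    have : (0 : ℝ) < ((k + 4).factorial : ℝ) := by exact_mod_cast Nat.factorial_pos _
    rw [pow_succ]
    have hk : (0 : ℝ) ≤ k := Nat.cast_nonneg k
    nlinarith

lemma S1_neg : G 0 2 < 0 := by
  rw [S1_G_eq, ← (S1_summable 0 2).sum_add_tsum_nat_add 4]
  have h1 : ∑ i ∈ Finset.range 4, S1c 0 i * (2 : ℝ) ^ i = -(2 / 9) := by
    simp only [Finset.sum_range_succ, Finset.sum_range_zero, S1c]
    norm_num [Nat.factorial]
  have h2 : ∑' i : ℕ, S1c 0 (i + 4) * (2 : ℝ) ^ (i + 4) ≤ ∑' i : ℕ, (1 / 36 : ℝ) * (1 / 2) ^ i := by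
    apply Summable.tsum_le_tsum _ ((summable_nat_add_iff 4).2 (S1_summable 0 2))
      (summable_geometric_two.mul_left _)
    intro i
    apply le_trans (le_abs_self _)
    have hf := S1_fact i
    have hp : (0 : ℝ) < 24 * 2 ^ i := by positivity
    unfold S1c
    rw [add_zero, abs_mul, abs_div, abs_pow, abs_neg, abs_one, one_pow, abs_of_pos (a := (2 : ℝ) ^ _)
      (by positivity), abs_of_pos (a := (_ : ℝ) * _) (by positivity), div_mul_eq_mul_div, one_mul,
      one_div, one_div, inv_pow, div_le_iff₀ (by positivity)]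
    have h3 : (24 * 2 ^ i) * (24 * 2 ^ i) ≤ ((i + 4).factorial : ℝ) * ((i + 4).factorial : ℝ) := by
      nlinarith
    have h4 : (2 : ℝ) ^ (i + 4) = 36⁻¹ * (2 ^ i)⁻¹ * ((24 * 2 ^ i) * (24 * 2 ^ i)) := by
      field_simp
      ring
    rw [h4]
    gcongr
  rw [tsum_mul_left, tsum_geometric_two] at h2
  rw [h1]
  linarith

theorem stmtA1 : StmtA1 := by
  refine ⟨S1_deriv, S1_ode, ?_, ?_⟩
  · rw [S1_zero]; unfold S1c; norm_num
  have hcont : ∀ j, Continuous (G j) := fun j =>
    continuous_iff_continuousAt.2 fun t => (S1_deriv j t).continuousAt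
  have h00 : G 0 0 = 1 := by rw [S1_zero]; unfold S1c; norm_num
  have h10 : G 1 0 = -1 := by rw [S1_zero]; unfold S1c; norm_num
  set Z := {t : ℝ | t ∈ Icc (0 : ℝ) 2 ∧ G 0 t = 0} with hZ
  have hZc : IsCompact Z := by
    have : Z = Icc (0 : ℝ) 2 ∩ (G 0) ⁻¹' {0} := by ext; simp [hZ]
    rw [this]
    exact isCompact_Icc.inter_right (isClosed_singleton.preimage (hcont 0))
  have hZn : Z.Nonempty := by
    have := intermediate_value_Icc' (show (0 : ℝ) ≤ 2 by norm_num) (hcont 0).continuousOn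
    obtain ⟨t, ht, ht0⟩ := this (show (0 : ℝ) ∈ Icc (G 0 2) (G 0 0) from
      ⟨S1_neg.le, by rw [h00]; norm_num⟩)
    exact ⟨t, ht, ht0⟩
  obtain ⟨T, ⟨⟨hT0, hT2⟩, hTz⟩, hTmin⟩ := hZc.exists_isLeast hZn
  have hTpos : 0 < T := by
    rcases eq_or_lt_of_le hT0 with h | h
    · rw [← h, h00] at hTz; norm_num at hTz
    · exact h
  have hg : ∀ t ∈ Ico 0 T, 0 < G 0 t := by
    intro t ht
    by_contra hneg
    push Not at hneg
    have := intermediate_value_Icc' ht.1 (hcont 0).continuousOn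
    obtain ⟨s, hs, hs0⟩ := this (show (0 : ℝ) ∈ Icc (G 0 t) (G 0 0) from
      ⟨hneg, by rw [h00]; norm_num⟩)
    have : T ≤ s := hTmin ⟨⟨hs.1, by linarith [hs.2, ht.2]⟩, hs0⟩
    linarith [hs.2, ht.2]
  have hH : ∀ t, HasDerivAt (fun t => t * G 1 t) (-G 0 t) t := by
    intro t
    have := (hasDerivAt_id t).mul (S1_deriv 1 t)
    refine HasDerivAt.congr_deriv this ?_
    have := S1_ode t
    simp only [id_eq]
    linarith
  have hg1 : ∀ t ∈ Icc 0 T, G 1 t < 0 := by
    intro t ht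
    rcases eq_or_lt_of_le ht.1 with h | h
    · rw [← h, h10]; norm_num
    · have hanti : StrictAntiOn (fun t => t * G 1 t) (Icc 0 T) := by
        apply strictAntiOn_of_deriv_neg (convex_Icc 0 T)
        · exact (continuous_id.mul (hcont 1)).continuousOn
        · intro x hx
          rw [interior_Icc] at hx
          rw [(hH x).deriv]
          linarith [hg x ⟨hx.1.le, hx.2⟩]
      have := hanti ⟨le_rfl, hT0⟩ ht h
      simp only [zero_mul] at this
      by_contra hc
      push Not at hc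
      have : 0 ≤ t * G 1 t := mul_nonneg h.le hc
      linarith
  refine ⟨T, ⟨hTpos, hTz, hg, hg1, ?_⟩⟩
  have hP : HasDerivAt (fun t => t * G 1 t ^ 2) (-G 1 T ^ 2) T := by
    have := (hasDerivAt_id T).mul ((S1_deriv 1 T).pow 2)
    refine HasDerivAt.congr_deriv this ?_
    have h := S1_ode T
    rw [hTz] at h
    have h2 : T * G 2 T = - G 1 T := by linarith
    simp only [id_eq]
    push_cast
    calc 1 * G 1 T ^ 2 + T * (2 * G 1 T ^ (2 - 1) * G 2 T)
        = G 1 T ^ 2 + 2 * G 1 T * (T * G 2 T) := by ring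
      _ = -G 1 T ^ 2 := by rw [h2]; ring
  have hneg : -G 1 T ^ 2 < 0 := by
    have := hg1 T ⟨hT0, le_rfl⟩
    nlinarith
  have hsl := hP.tendsto_slope.mono_left (nhdsWithin_mono T (fun x (hx : x ∈ Iio T) => ne_of_lt hx))
  have hev := hsl.eventually (gt_mem_nhds hneg)
  have hev2 : ∀ᶠ x in 𝓝[<] T, x ∈ Ioo 0 T := Ioo_mem_nhdsLT hTpos
  obtain ⟨t0, h1, h2⟩ := (hev.and hev2).exists
  refine ⟨t0, h2, ?_⟩
  rw [slope_def_field] at h1
  have h3 : t0 - T < 0 := by linarith [h2.2]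
  rw [div_lt_iff_of_neg h3] at h1
  linarith

end Pool.Agent.R263.ST
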