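import Mathlib
import Pool.Agent.R263.ST.Defs

/-!
# MP_a4170f_an, pieces A2 and A3: calculus of `u z = J₀(‖z‖)`, Picone identity
-/

namespace Pool.Agent.R263.ST

open MeasureTheory Set Metric Filter Topology
open scoped ContDiff ENNReal

lemma S2_contDiff_nat (h1 : StmtA1) (n : ℕ) : ∀ j, ContDiff ℝ n (G j) := by
  have hd : ∀ j, Differentiable ℝ (G j) := fun j t => (h1.1 j t).differentiableAt
  have hde : ∀ j, deriv (G j) = G (j + 1) := fun j => funext fun t => (h1.1 j t).deriv
  induction n with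
  | zero =>
    intro j
    exact contDiff_zero.2 (hd j).continuous
  | succ n ih =>
    intro j
    have : ((n + 1 : ℕ) : WithTop ℕ∞) = (n : WithTop ℕ∞) + 1 := by push_cast; rfl
    rw [this, contDiff_succ_iff_deriv]
    refine ⟨hd j, by simp, ?_⟩
    rw [hde]
    exact ih (j + 1)

lemma S2_contDiff (h1 : StmtA1) (j : ℕ) : ContDiff ℝ ∞ (G j) :=
  contDiff_infty.2 fun n => S2_contDiff_nat h1 n j

lemma S2_normsq (z : ℂ) : ‖z‖ ^ 2 / 4 = (z.re ^ 2 + z.im ^ 2) / 4 := by
  rw [Complex.sq_norm, Complex.normSq_apply]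
  ring

/-- the argument `‖z‖²/4` -/
noncomputable def S2_t (z : ℂ) : ℝ := (z.re ^ 2 + z.im ^ 2) / 4

lemma S2_t_contDiff : ContDiff ℝ ∞ S2_t := by
  unfold S2_t
  have h1 : ContDiff ℝ ∞ (fun z : ℂ => z.re) := Complex.reCLM.contDiff
  have h2 : ContDiff ℝ ∞ (fun z : ℂ => z.im) := Complex.imCLM.contDiff
  fun_prop

lemma S2_t_deriv (z : ℂ) : HasFDerivAt S2_t ((z.re / 2) • Complex.reCLM + (z.im / 2) • Complex.imCLM) z := by
  have h1 : HasFDerivAt (fun z : ℂ => z.re) Complex.reCLM z := Complex.reCLM.hasFDerivAt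
  have h2 : HasFDerivAt (fun z : ℂ => z.im) Complex.imCLM z := Complex.imCLM.hasFDerivAt
  have h3 := ((h1.pow 2).add (h2.pow 2)).mul_const (4⁻¹ : ℝ)
  have h4 : S2_t = fun z : ℂ => (z.re ^ 2 + z.im ^ 2) * 4⁻¹ := by
    ext z; unfold S2_t; ring
  rw [h4]
  refine HasFDerivAt.congr_fderiv h3 ?_
  ext w
  simp
  ring

lemma S2_u_eq : u = fun z => G 0 (S2_t z) := by
  ext z
  unfold u S2_t
  rw [S2_normsq]

/-- the partial derivatives of `u` -/
noncomputable def S2_p (z : ℂ) : ℝ := G 1 (S2_t z) * (z.re / 2)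
noncomputable def S2_q (z : ℂ) : ℝ := G 1 (S2_t z) * (z.im / 2)

lemma S2_G_deriv (h1 : StmtA1) (j : ℕ) (z : ℂ) : HasFDerivAt (fun z => G j (S2_t z))
    (G (j + 1) (S2_t z) • ((z.re / 2) • Complex.reCLM + (z.im / 2) • Complex.imCLM)) z :=
  (h1.1 j (S2_t z)).comp_hasFDerivAt z (S2_t_deriv z)

lemma S2_u_fderiv (h1 : StmtA1) (z : ℂ) : fderiv ℝ u z =
    G 1 (S2_t z) • ((z.re / 2) • Complex.reCLM + (z.im / 2) • Complex.imCLM) := by
  rw [S2_u_eq]
  exact (S2_G_deriv h1 0 z).fderiv

lemma S2_u_one (h1 : StmtA1) (z : ℂ) : fderiv ℝ u z 1 = S2_p z := by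
  rw [S2_u_fderiv h1]
  simp [S2_p]

lemma S2_u_I (h1 : StmtA1) (z : ℂ) : fderiv ℝ u z Complex.I = S2_q z := by
  rw [S2_u_fderiv h1]
  simp [S2_q]

lemma S2_p_contDiff (h1 : StmtA1) : ContDiff ℝ ∞ S2_p := by
  unfold S2_p
  have h2 : ContDiff ℝ ∞ (fun z : ℂ => z.re) := Complex.reCLM.contDiff
  exact ((S2_contDiff h1 1).comp S2_t_contDiff).mul (h2.div_const 2)

lemma S2_q_contDiff (h1 : StmtA1) : ContDiff ℝ ∞ S2_q := by
  unfold S2_q
  have h2 : ContDiff ℝ ∞ (fun z : ℂ => z.im) := Complex.imCLM.contDiff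
  exact ((S2_contDiff h1 1).comp S2_t_contDiff).mul (h2.div_const 2)

lemma S2_p_one (h1 : StmtA1) (z : ℂ) :
    fderiv ℝ S2_p z 1 = G 1 (S2_t z) / 2 + G 2 (S2_t z) * (z.re ^ 2 / 4) := by
  have h2 : HasFDerivAt (fun z : ℂ => z.re / 2) ((2⁻¹ : ℝ) • Complex.reCLM) z := by
    have := (Complex.reCLM.hasFDerivAt (x := z)).mul_const (2⁻¹ : ℝ)
    exact this
  have h3 : HasFDerivAt S2_p _ z := (S2_G_deriv h1 1 z).mul h2
  rw [h3.fderiv]
  simp
  ring

lemma S2_q_I (h1 : StmtA1) (z : ℂ) :
    fderiv ℝ S2_q z Complex.I = G 1 (S2_t z) / 2 + G 2 (S2_t z) * (z.im ^ 2 / 4) := by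
  have h2 : HasFDerivAt (fun z : ℂ => z.im / 2) ((2⁻¹ : ℝ) • Complex.imCLM) z := by
    have := (Complex.imCLM.hasFDerivAt (x := z)).mul_const (2⁻¹ : ℝ)
    exact this
  have h3 : HasFDerivAt S2_q _ z := (S2_G_deriv h1 1 z).mul h2
  rw [h3.fderiv]
  simp
  ring

lemma S2_laplace (h1 : StmtA1) (z : ℂ) :
    fderiv ℝ S2_p z 1 + fderiv ℝ S2_q z Complex.I = -u z := by
  rw [S2_p_one h1, S2_q_I h1, S2_u_eq]
  have h := h1.2.1 (S2_t z)
  have h2 : S2_t z * G 2 (S2_t z) = G 2 (S2_t z) * (z.re ^ 2 / 4) + G 2 (S2_t z) * (z.im ^ 2 / 4) := by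
    unfold S2_t
    ring
  linarith

theorem stmtA2 (h0 : StmtA0) (h1 : StmtA1) : StmtA2 := by
  have huC : ContDiff ℝ ∞ u := by
    rw [S2_u_eq]
    exact (S2_contDiff h1 0).comp S2_t_contDiff
  refine ⟨huC, ?_, ?_⟩
  · intro z
    rw [h0, S2_u_one h1, S2_u_I h1, S2_normsq]
    unfold S2_p S2_q S2_t
    ring
  · intro w hw hwc
    have hwd : Differentiable ℝ w := hw.differentiable (by simp)
    have hpd : Differentiable ℝ S2_p := (S2_p_contDiff h1).differentiable (by simp)
    have hqd : Differentiable ℝ S2_q := (S2_q_contDiff h1).differentiable (by simp)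
    have hfw : Continuous (fderiv ℝ w) := hw.continuous_fderiv (by simp)
    have hfp : Continuous (fderiv ℝ S2_p) := (S2_p_contDiff h1).continuous_fderiv (by simp)
    have hfq : Continuous (fderiv ℝ S2_q) := (S2_q_contDiff h1).continuous_fderiv (by simp)
    have hfwc : HasCompactSupport (fderiv ℝ w) := hwc.fderiv (𝕜 := ℝ)
    have hev : ∀ v : ℂ, HasCompactSupport fun z => fderiv ℝ w z v := fun v =>
      hfwc.comp_left (g := fun l : ℂ →L[ℝ] ℝ => l v) (by simp)
    have i1 : Integrable (fun z => S2_p z * fderiv ℝ w z 1) := by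
      apply Continuous.integrable_of_hasCompactSupport
      · exact hpd.continuous.mul (hfw.clm_apply continuous_const)
      · exact (hev 1).mul_left
    have i2 : Integrable (fun z => S2_q z * fderiv ℝ w z Complex.I) := by
      apply Continuous.integrable_of_hasCompactSupport
      · exact hqd.continuous.mul (hfw.clm_apply continuous_const)
      · exact (hev Complex.I).mul_left
    have i3 : Integrable (fun z => fderiv ℝ S2_p z 1 * w z) := by
      apply Continuous.integrable_of_hasCompactSupport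
      · exact (hfp.clm_apply continuous_const).mul hwd.continuous
      · exact hwc.mul_left
    have i4 : Integrable (fun z => fderiv ℝ S2_q z Complex.I * w z) := by
      apply Continuous.integrable_of_hasCompactSupport
      · exact (hfq.clm_apply continuous_const).mul hwd.continuous
      · exact hwc.mul_left
    have i5 : Integrable (fun z => S2_p z * w z) := by
      apply Continuous.integrable_of_hasCompactSupport
      · exact hpd.continuous.mul hwd.continuous
      · exact hwc.mul_left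
    have i6 : Integrable (fun z => S2_q z * w z) := by
      apply Continuous.integrable_of_hasCompactSupport
      · exact hqd.continuous.mul hwd.continuous
      · exact hwc.mul_left
    have e1 := integral_mul_fderiv_eq_neg_fderiv_mul_of_integrable i3 i1 i5 (fun x _ => hpd x) (fun x _ => hwd x)
    have e2 := integral_mul_fderiv_eq_neg_fderiv_mul_of_integrable i4 i2 i6 (fun x _ => hqd x) (fun x _ => hwd x)
    have hL : ∀ z, fderiv ℝ u z 1 * fderiv ℝ w z 1 + fderiv ℝ u z Complex.I * fderiv ℝ w z Complex.I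
        = S2_p z * fderiv ℝ w z 1 + S2_q z * fderiv ℝ w z Complex.I := by
      intro z
      rw [S2_u_one h1, S2_u_I h1]
    simp_rw [hL]
    rw [integral_add i1 i2, e1, e2, ← neg_add, ← integral_add i3 i4, ← integral_neg]
    congr 1
    ext z
    have := S2_laplace h1 z
    calc -(fderiv ℝ S2_p z 1 * w z + fderiv ℝ S2_q z Complex.I * w z)
        = -(fderiv ℝ S2_p z 1 + fderiv ℝ S2_q z Complex.I) * w z := by ring
      _ = u z * w z := by rw [this]; ring

theorem stmtA3 (h0 : StmtA0) (h2 : StmtA2) : StmtA3 := by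
  intro f hf hfc
  obtain ⟨huC, -, hweak⟩ := h2
  have hud : Differentiable ℝ u := huC.differentiable (by simp)
  have hfd : Differentiable ℝ f := hf.differentiable (by simp)
  have hfu : Continuous (fderiv ℝ u) := huC.continuous_fderiv (by simp)
  have hff : Continuous (fderiv ℝ f) := hf.continuous_fderiv (by simp)
  set w : ℂ → ℝ := fun z => u z * f z ^ 2 with hw
  have hwC : ContDiff ℝ ∞ w := huC.mul (hf.pow 2)
  have hf2c : HasCompactSupport fun z => f z ^ 2 :=
    hfc.comp_left (g := fun x : ℝ => x ^ 2) (by simp)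
  have hwc : HasCompactSupport w := hf2c.mul_left
  have hwd : ∀ z, HasFDerivAt w (u z • ((2 * f z) • fderiv ℝ f z) + (f z ^ 2) • fderiv ℝ u z) z := by
    intro z
    have := (hud z).hasFDerivAt.mul ((hfd z).hasFDerivAt.pow 2)
    refine HasFDerivAt.congr_fderiv this ?_
    ext v; simp
  have hgd : ∀ z, HasFDerivAt (fun y => u y * f y) (u z • fderiv ℝ f z + f z • fderiv ℝ u z) z :=
    fun z => (hud z).hasFDerivAt.mul (hfd z).hasFDerivAt
  have hpt : ∀ z, ‖fderiv ℝ (fun y => u y * f y) z‖ ^ 2 = u z ^ 2 * ‖fderiv ℝ f z‖ ^ 2 +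
      (fderiv ℝ u z 1 * fderiv ℝ w z 1 + fderiv ℝ u z Complex.I * fderiv ℝ w z Complex.I) := by
    intro z
    rw [h0, h0, (hgd z).fderiv, (hwd z).fderiv]
    simp only [add_apply, smul_apply, smul_eq_mul]
    ring
  have hfwc : HasCompactSupport (fderiv ℝ w) := hwc.fderiv (𝕜 := ℝ)
  have hfw : Continuous (fderiv ℝ w) := hwC.continuous_fderiv (by simp)
  have hev : ∀ v : ℂ, HasCompactSupport fun z => fderiv ℝ w z v := fun v =>
    hfwc.comp_left (g := fun l : ℂ →L[ℝ] ℝ => l v) (by simp)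
  have hffc : HasCompactSupport (fderiv ℝ f) := hfc.fderiv (𝕜 := ℝ)
  have i1 : Integrable (fun z => u z ^ 2 * ‖fderiv ℝ f z‖ ^ 2) := by
    apply Continuous.integrable_of_hasCompactSupport
    · exact (hud.continuous.pow 2).mul (hff.norm.pow 2)
    · apply HasCompactSupport.mul_left
      exact hffc.comp_left (g := fun l : ℂ →L[ℝ] ℝ => ‖l‖ ^ 2) (by simp)
  have i2 : Integrable (fun z => fderiv ℝ u z 1 * fderiv ℝ w z 1 +
      fderiv ℝ u z Complex.I * fderiv ℝ w z Complex.I) := by
    apply Integrable.add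
    · apply Continuous.integrable_of_hasCompactSupport
      · exact (hfu.clm_apply continuous_const).mul (hfw.clm_apply continuous_const)
      · exact (hev 1).mul_left
    · apply Continuous.integrable_of_hasCompactSupport
      · exact (hfu.clm_apply continuous_const).mul (hfw.clm_apply continuous_const)
      · exact (hev Complex.I).mul_left
  simp_rw [hpt]
  rw [integral_add i1 i2, hweak w hwC hwc]
  have : ∀ z, u z * w z = (u z * f z) ^ 2 := by
    intro z
    simp only [hw]
    ring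
  simp_rw [this]
  ring

end Pool.Agent.R263.ST
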