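import Mathlib
import Pool.Agent.R263.ST.Defs

namespace Pool.Agent.R263.ST

open MeasureTheory Set Metric
open scoped ContDiff ENNReal

theorem stmtB1 : StmtB1 := by
  intro a b V φ f hab hV hφ hf hsup h0 h1
  have hV1 : ContDiff ℝ ∞ (deriv V) := by
    have := (contDiff_infty_iff_deriv (𝕜 := ℝ) (f := V)).1 hV
    exact this.2
  have hf1 : ContDiff ℝ ∞ (deriv f) := by
    have := (contDiff_infty_iff_deriv (𝕜 := ℝ) (f := f)).1 hf
    exact this.2
  have hg : ContDiff ℝ ∞ (fun x => φ x * deriv V x) := hφ.mul hV1
  have hg1 : ContDiff ℝ ∞ (deriv (fun x => φ x * deriv V x)) := by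
    have := (contDiff_infty_iff_deriv (𝕜 := ℝ) (f := fun x => φ x * deriv V x)).1 hg
    exact this.2
  have hφa : φ a = 0 :=
    image_eq_zero_of_notMem_tsupport (fun h => absurd (hsup h).1 (lt_irrefl _))
  have hφb : φ b = 0 :=
    image_eq_zero_of_notMem_tsupport (fun h => absurd (hsup h).2 (lt_irrefl _))
  have dV : ∀ s, HasDerivAt V (deriv V s) s := fun s =>
    (hV.differentiable (by simp) s).hasDerivAt
  have df : ∀ s, HasDerivAt f (deriv f s) s := fun s =>
    (hf.differentiable (by simp) s).hasDerivAt
  have dg : ∀ s, HasDerivAt (fun x => φ x * deriv V x)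
      (deriv (fun x => φ x * deriv V x) s) s := fun s =>
    (hg.differentiable (by simp) s).hasDerivAt
  have hW : ∀ s, HasDerivAt (fun x => ((φ x * deriv V x) * V x) * f x ^ 2)
      (deriv (fun x => φ x * deriv V x) s * V s * f s ^ 2
        + (φ s * deriv V s) * deriv V s * f s ^ 2
        + (φ s * deriv V s) * V s * (2 * f s * deriv f s)) s := by
    intro s
    have h := ((dg s).mul (dV s)).mul ((df s).pow 2)
    refine h.congr_deriv ?_
    simp only [Pi.pow_apply, Pi.mul_apply]
    push_cast
    ring
  have cV := hV.continuous
  have cf := hf.continuous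
  have cφ := hφ.continuous
  have cV1 := hV1.continuous
  have cf1 := hf1.continuous
  have cg1 := hg1.continuous
  have hcont : Continuous (fun s => deriv (fun x => φ x * deriv V x) s * V s * f s ^ 2
        + (φ s * deriv V s) * deriv V s * f s ^ 2
        + (φ s * deriv V s) * V s * (2 * f s * deriv f s)) := by
    fun_prop
  have hint : ∫ s in a..b, (deriv (fun x => φ x * deriv V x) s * V s * f s ^ 2
        + (φ s * deriv V s) * deriv V s * f s ^ 2
        + (φ s * deriv V s) * V s * (2 * f s * deriv f s)) = 0 := by
    rw [intervalIntegral.integral_eq_sub_of_hasDerivAt (fun s _ => hW s)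
      (hcont.intervalIntegrable _ _)]
    simp [hφa, hφb]
  have hder : ∀ s, deriv (fun x => V x * f x) s = deriv V s * f s + V s * deriv f s := fun s =>
    ((dV s).mul (df s)).deriv
  have hL : Continuous (fun s => (-(V s) * deriv (fun x => φ x * deriv V x) s) * f s ^ 2) := by
    fun_prop
  calc ∫ s in a..b, (-(V s) * deriv (fun x => φ x * deriv V x) s) * f s ^ 2
      = (∫ s in a..b, (-(V s) * deriv (fun x => φ x * deriv V x) s) * f s ^ 2) +
        ∫ s in a..b, (deriv (fun x => φ x * deriv V x) s * V s * f s ^ 2
        + (φ s * deriv V s) * deriv V s * f s ^ 2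
        + (φ s * deriv V s) * V s * (2 * f s * deriv f s)) := by rw [hint, add_zero]
    _ = ∫ s in a..b, ((-(V s) * deriv (fun x => φ x * deriv V x) s) * f s ^ 2 +
        (deriv (fun x => φ x * deriv V x) s * V s * f s ^ 2
        + (φ s * deriv V s) * deriv V s * f s ^ 2
        + (φ s * deriv V s) * V s * (2 * f s * deriv f s))) :=
        (intervalIntegral.integral_add (hL.intervalIntegrable _ _)
          (hcont.intervalIntegrable _ _)).symm
    _ ≤ ∫ s in a..b, (deriv (fun x => V x * f x) s) ^ 2 := by
        apply intervalIntegral.integral_mono_on hab.le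
        · exact (hL.add hcont).intervalIntegrable _ _
        · have : Continuous (fun s => (deriv (fun x => V x * f x) s) ^ 2) := by
            simp only [hder]
            fun_prop
          exact this.intervalIntegrable _ _
        · intro s _
          rw [hder s]
          have e1 : (-(V s) * deriv (fun x => φ x * deriv V x) s) * f s ^ 2 +
            (deriv (fun x => φ x * deriv V x) s * V s * f s ^ 2
            + (φ s * deriv V s) * deriv V s * f s ^ 2
            + (φ s * deriv V s) * V s * (2 * f s * deriv f s))
            = φ s * ((deriv V s * f s + V s * deriv f s) ^ 2 - (V s * deriv f s) ^ 2) := by ring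
          rw [e1]
          have e2 := h0 s
          have e3 := h1 s
          nlinarith [sq_nonneg (V s * deriv f s), sq_nonneg (deriv V s * f s + V s * deriv f s),
            mul_nonneg e2 (sq_nonneg (V s * deriv f s)),
            mul_nonneg (sub_nonneg.2 e3) (sq_nonneg (deriv V s * f s + V s * deriv f s))]

end Pool.Agent.R263.ST
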