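import Mathlib
import Pool.Agent.R263.ST.Defs

namespace Pool.Agent.R263.ST

open MeasureTheory Set Metric
open scoped ContDiff ENNReal Real Interval

namespace S4

noncomputable def pt (r θ : ℝ) : ℂ := (r : ℂ) * Complex.exp ((θ : ℂ) * Complex.I)

lemma pt_cont : Continuous (fun p : ℝ × ℝ => pt p.1 p.2) := by
  unfold pt; fun_prop

lemma pt_norm (r θ : ℝ) (hr : 0 ≤ r) : ‖pt r θ‖ = r := by
  simp [pt, Complex.norm_exp_ofReal_mul_I, abs_of_nonneg hr]

lemma pt_zero (r : ℝ) : pt r 0 = (r : ℂ) := by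
  simp [pt]

lemma hasDeriv_th (F : ℂ → ℝ) (hF : ContDiff ℝ ∞ F) (r θ : ℝ) :
    HasDerivAt (fun t => F (pt r t))
      (fderiv ℝ F (pt r θ) ((r : ℂ) * (Complex.exp ((θ : ℂ) * Complex.I) * Complex.I))) θ := by
  have h1 : HasFDerivAt F (fderiv ℝ F (pt r θ)) (pt r θ) :=
    (hF.differentiable (by simp)).differentiableAt.hasFDerivAt
  have h2 : HasDerivAt (fun t : ℝ => pt r t)
      ((r : ℂ) * (Complex.exp ((θ : ℂ) * Complex.I) * Complex.I)) θ := by
    unfold pt
    have h3 : HasDerivAt (fun t : ℝ => (t : ℂ) * Complex.I) (1 * Complex.I) θ :=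
      (Complex.ofRealCLM.hasDerivAt (x := θ)).mul_const Complex.I
    have h4 := h3.cexp
    simpa using h4.const_mul (r : ℂ)
  exact h1.comp_hasDerivAt θ h2

lemma hasDeriv_r (F : ℂ → ℝ) (hF : ContDiff ℝ ∞ F) (r θ : ℝ) :
    HasDerivAt (fun s => F (pt s θ))
      (fderiv ℝ F (pt r θ) (Complex.exp ((θ : ℂ) * Complex.I))) r := by
  have h1 : HasFDerivAt F (fderiv ℝ F (pt r θ)) (pt r θ) :=
    (hF.differentiable (by simp)).differentiableAt.hasFDerivAt
  have h2 : HasDerivAt (fun s : ℝ => pt s θ) (Complex.exp ((θ : ℂ) * Complex.I)) r := by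
    unfold pt
    have h3 : HasDerivAt (fun t : ℝ => (t : ℂ)) 1 r :=
      (Complex.ofRealCLM.hasDerivAt (x := r))
    simpa using h3.mul_const (Complex.exp ((θ : ℂ) * Complex.I))
  exact h1.comp_hasDerivAt r h2

lemma polar (g : ℂ → ℝ) (hg : Continuous g) (R : ℝ) (hR : 0 < R) :
    ∫ z in ball (0 : ℂ) R, g z = ∫ r in (0 : ℝ)..R, ∫ θ in (-π)..π, r * g (pt r θ) := by
  have hpi : -π ≤ π := by linarith [Real.pi_pos]
  rw [← integral_indicator measurableSet_ball, ← Complex.integral_comp_polarCoord_symm]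
  have h1 : ∫ p in polarCoord.target,
      p.1 • (ball (0 : ℂ) R).indicator g (Complex.polarCoord.symm p)
      = ∫ p in Ioo 0 R ×ˢ Ioo (-π) π, p.1 * g (pt p.1 p.2) := by
    rw [← integral_indicator polarCoord.open_target.measurableSet,
      ← integral_indicator (measurableSet_Ioo.prod measurableSet_Ioo)]
    congr 1
    funext p
    have hpt : Complex.polarCoord.symm p = pt p.1 p.2 := by
      rw [Complex.polarCoord_symm_apply, pt, Complex.exp_mul_I]
      simp
    by_cases hp : p ∈ polarCoord.target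
    · rw [indicator_of_mem hp]
      have hp' : 0 < p.1 ∧ p.2 ∈ Ioo (-π) π := hp
      by_cases hpR : p.1 < R
      · have hmem : p ∈ Ioo 0 R ×ˢ Ioo (-π) π := ⟨⟨hp'.1, hpR⟩, hp'.2⟩
        rw [indicator_of_mem hmem, indicator_of_mem, hpt, smul_eq_mul]
        rw [hpt, mem_ball_zero_iff, pt_norm _ _ hp'.1.le]
        exact hpR
      · have hmem : p ∉ Ioo 0 R ×ˢ Ioo (-π) π := fun h => hpR h.1.2
        rw [indicator_of_notMem hmem, indicator_of_notMem, smul_zero]
        rw [hpt, mem_ball_zero_iff, pt_norm _ _ hp'.1.le]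
        exact hpR
    · have hmem : p ∉ Ioo 0 R ×ˢ Ioo (-π) π := fun h => hp ⟨h.1.1, h.2⟩
      rw [indicator_of_notMem hp, indicator_of_notMem hmem]
  rw [h1]
  have hc : Continuous (fun p : ℝ × ℝ => p.1 * g (pt p.1 p.2)) :=
    continuous_fst.mul (hg.comp pt_cont)
  have hint : IntegrableOn (fun p : ℝ × ℝ => p.1 * g (pt p.1 p.2)) (Ioo 0 R ×ˢ Ioo (-π) π)
      (volume.prod volume) := by
    have : IntegrableOn (fun p : ℝ × ℝ => p.1 * g (pt p.1 p.2)) (Icc 0 R ×ˢ Icc (-π) π)
      (volume.prod volume) := hc.continuousOn.integrableOn_compact (isCompact_Icc.prod isCompact_Icc)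
    exact this.mono_set (prod_mono Ioo_subset_Icc_self Ioo_subset_Icc_self)
  rw [Measure.volume_eq_prod, setIntegral_prod _ hint, intervalIntegral.integral_of_le hR.le,
    integral_Ioc_eq_integral_Ioo]
  refine setIntegral_congr_fun measurableSet_Ioo fun r _ => ?_
  simp only
  rw [intervalIntegral.integral_of_le hpi, integral_Ioc_eq_integral_Ioo]

/-- swap of interval integrals of a continuous function -/
lemma swap (f : ℝ → ℝ → ℝ) (hf : Continuous (Function.uncurry f)) (a b c d : ℝ) :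
    ∫ x in a..b, ∫ y in c..d, f x y = ∫ y in c..d, ∫ x in a..b, f x y := by
  apply intervalIntegral_intervalIntegral_swap
  have : IntegrableOn (Function.uncurry f) (uIcc a b ×ˢ uIcc c d) :=
    hf.continuousOn.integrableOn_compact (isCompact_uIcc.prod isCompact_uIcc)
  exact this.mono_set (prod_mono uIoc_subset_uIcc uIoc_subset_uIcc)

lemma cont_inner (f : ℝ → ℝ → ℝ) (hf : Continuous (Function.uncurry f)) (c d : ℝ) :
    Continuous (fun x => ∫ y in c..d, f x y) :=
  intervalIntegral.continuous_parametric_intervalIntegral_of_continuous' hf c d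


lemma cont_pt_th (r : ℝ) : Continuous (fun θ : ℝ => pt r θ) := by
  unfold pt; fun_prop

lemma cont_pt_r (θ : ℝ) : Continuous (fun r : ℝ => pt r θ) := by
  unfold pt; fun_prop

lemma angular (F : ℂ → ℝ) (hF : ContDiff ℝ ∞ F) (r : ℝ) (hr : 0 ≤ r) :
    |2 * π * F (r : ℂ) - ∫ θ in (-π)..π, F (pt r θ)|
      ≤ 2 * π * (r * ∫ θ in (-π)..π, ‖fderiv ℝ F (pt r θ)‖) := by
  have hp := Real.pi_pos
  have hpi : -π ≤ π := by linarith
  have hfc : Continuous (fderiv ℝ F) := hF.continuous_fderiv (by simp)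
  have hcont : Continuous (fun θ : ℝ => ‖fderiv ℝ F (pt r θ)‖) :=
    (hfc.comp (cont_pt_th r)).norm
  have hcont2 : Continuous (fun θ : ℝ => fderiv ℝ F (pt r θ)
      ((r : ℂ) * (Complex.exp ((θ : ℂ) * Complex.I) * Complex.I))) :=
    (hfc.comp (cont_pt_th r)).clm_apply (by fun_prop)
  have key : ∀ θ ∈ Icc (-π) π, |F (r : ℂ) - F (pt r θ)|
      ≤ r * ∫ θ in (-π)..π, ‖fderiv ℝ F (pt r θ)‖ := by
    intro θ hθ
    have e : F (r : ℂ) - F (pt r θ) = ∫ t in θ..0, fderiv ℝ F (pt r t)
        ((r : ℂ) * (Complex.exp ((t : ℂ) * Complex.I) * Complex.I)) := by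
      rw [intervalIntegral.integral_eq_sub_of_hasDerivAt (fun t _ => hasDeriv_th F hF r t)
        (hcont2.intervalIntegrable _ _), pt_zero]
    rw [e]
    have hpt : ∀ t : ℝ, ‖fderiv ℝ F (pt r t)
        ((r : ℂ) * (Complex.exp ((t : ℂ) * Complex.I) * Complex.I))‖
        ≤ r * ‖fderiv ℝ F (pt r t)‖ := by
      intro t
      refine (ContinuousLinearMap.le_opNorm _ _).trans (le_of_eq ?_)
      rw [norm_mul, norm_mul, Complex.norm_exp_ofReal_mul_I, Complex.norm_I, Complex.norm_real,
        Real.norm_of_nonneg hr]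
      ring
    have hsub : Ι θ 0 ⊆ Ioc (-π) π := by
      intro t ht
      rw [uIoc, mem_Ioc] at ht
      constructor
      · exact lt_of_le_of_lt (le_min hθ.1 (by linarith)) ht.1
      · exact ht.2.trans (max_le hθ.2 hp.le)
    rw [← Real.norm_eq_abs]
    calc ‖∫ t in θ..0, fderiv ℝ F (pt r t)
              ((r : ℂ) * (Complex.exp ((t : ℂ) * Complex.I) * Complex.I))‖
        ≤ ∫ t in Ι θ 0, ‖fderiv ℝ F (pt r t)
            ((r : ℂ) * (Complex.exp ((t : ℂ) * Complex.I) * Complex.I))‖ :=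
          intervalIntegral.norm_integral_le_integral_norm_uIoc
      _ ≤ ∫ t in Ι θ 0, r * ‖fderiv ℝ F (pt r t)‖ := by
          apply setIntegral_mono
          · exact (hcont2.norm.intervalIntegrable θ 0).def'
          · exact ((continuous_const.mul hcont).intervalIntegrable θ 0).def'
          · exact hpt
      _ ≤ ∫ t in Ioc (-π) π, r * ‖fderiv ℝ F (pt r t)‖ := by
          apply setIntegral_mono_set
          · exact ((continuous_const.mul hcont).intervalIntegrable (-π) π).1
          · exact Filter.Eventually.of_forall fun t => mul_nonneg hr (norm_nonneg _)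
          · exact Filter.Eventually.of_forall hsub
      _ = r * ∫ θ in (-π)..π, ‖fderiv ℝ F (pt r θ)‖ := by
          rw [intervalIntegral.integral_of_le hpi, integral_const_mul]
  have e2 : 2 * π * F (r : ℂ) - ∫ θ in (-π)..π, F (pt r θ)
      = ∫ θ in (-π)..π, (F (r : ℂ) - F (pt r θ)) := by
    rw [intervalIntegral.integral_sub]
    · rw [intervalIntegral.integral_const, smul_eq_mul]
      ring
    · exact (continuous_const).intervalIntegrable _ _
    · exact (hF.continuous.comp (cont_pt_th r)).intervalIntegrable _ _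
  rw [e2]
  have h3 := intervalIntegral.norm_integral_le_of_norm_le_const (a := -π) (b := π)
    (f := fun θ => F (r : ℂ) - F (pt r θ))
    (C := r * ∫ θ in (-π)..π, ‖fderiv ℝ F (pt r θ)‖) (fun θ hθ => key θ (by
      rw [uIoc_of_le hpi] at hθ
      exact ⟨hθ.1.le, hθ.2⟩))
  rw [Real.norm_eq_abs] at h3
  refine h3.trans (le_of_eq ?_)
  rw [abs_of_nonneg (by linarith)]
  ring

lemma radial (F : ℂ → ℝ) (hF : ContDiff ℝ ∞ F) (R : ℝ) (hR : 0 < R) (x X : ℝ → ℝ)
    (hx : Continuous x) (hX : ∀ r, HasDerivAt X (x r) r) (hX0 : X 0 = 0) (hXR : X R = 0) :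
    |∫ r in (0 : ℝ)..R, x r * ∫ θ in (-π)..π, F (pt r θ)|
      ≤ ∫ r in (0 : ℝ)..R, |X r| * ∫ θ in (-π)..π, ‖fderiv ℝ F (pt r θ)‖ := by
  have hp := Real.pi_pos
  have hpi : -π ≤ π := by linarith
  have hfc : Continuous (fderiv ℝ F) := hF.continuous_fderiv (by simp)
  have hXc : Continuous X := continuous_iff_continuousAt.2 fun r => (hX r).continuousAt
  have hd : Continuous (fun p : ℝ × ℝ => fderiv ℝ F (pt p.1 p.2)
      (Complex.exp ((p.2 : ℂ) * Complex.I))) :=
    (hfc.comp pt_cont).clm_apply (by fun_prop)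
  have hFc : Continuous (fun p : ℝ × ℝ => F (pt p.1 p.2)) := hF.continuous.comp pt_cont
  have e1 : ∫ r in (0 : ℝ)..R, x r * ∫ θ in (-π)..π, F (pt r θ)
      = - ∫ r in (0 : ℝ)..R, X r * ∫ θ in (-π)..π,
          fderiv ℝ F (pt r θ) (Complex.exp ((θ : ℂ) * Complex.I)) := by
    have a1 : ∫ r in (0 : ℝ)..R, x r * ∫ θ in (-π)..π, F (pt r θ)
        = ∫ θ in (-π)..π, ∫ r in (0 : ℝ)..R, x r * F (pt r θ) := by
      rw [← swap (fun r θ => x r * F (pt r θ))]
      · refine intervalIntegral.integral_congr fun r _ => ?_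
        exact (intervalIntegral.integral_const_mul _ _).symm
      · exact (hx.comp continuous_fst).mul hFc
    have a2 : ∫ r in (0 : ℝ)..R, X r * ∫ θ in (-π)..π,
          fderiv ℝ F (pt r θ) (Complex.exp ((θ : ℂ) * Complex.I))
        = ∫ θ in (-π)..π, ∫ r in (0 : ℝ)..R, X r *
          fderiv ℝ F (pt r θ) (Complex.exp ((θ : ℂ) * Complex.I)) := by
      rw [← swap (fun r θ => X r * fderiv ℝ F (pt r θ) (Complex.exp ((θ : ℂ) * Complex.I)))]
      · refine intervalIntegral.integral_congr fun r _ => ?_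
        exact (intervalIntegral.integral_const_mul _ _).symm
      · exact (hXc.comp continuous_fst).mul hd
    rw [a1, a2, ← intervalIntegral.integral_neg]
    refine intervalIntegral.integral_congr fun θ _ => ?_
    have hdr : Continuous (fun r : ℝ => fderiv ℝ F (pt r θ)
      (Complex.exp ((θ : ℂ) * Complex.I))) := (hfc.comp (cont_pt_r θ)).clm_apply continuous_const
    have ibp := intervalIntegral.integral_mul_deriv_eq_deriv_mul (a := 0) (b := R)
      (u := fun r => F (pt r θ)) (v := X)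
      (u' := fun r => fderiv ℝ F (pt r θ) (Complex.exp ((θ : ℂ) * Complex.I))) (v' := x)
      (fun r _ => hasDeriv_r F hF r θ) (fun r _ => hX r)
      (hdr.intervalIntegrable _ _) (hx.intervalIntegrable _ _)
    rw [hX0, hXR, mul_zero, mul_zero, sub_zero, zero_sub] at ibp
    calc ∫ r in (0 : ℝ)..R, x r * F (pt r θ) = ∫ r in (0 : ℝ)..R, F (pt r θ) * x r := by
          refine intervalIntegral.integral_congr fun r _ => ?_
          exact mul_comm _ _
      _ = _ := ibp
      _ = _ := by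
          congr 1
          refine intervalIntegral.integral_congr fun r _ => ?_
          exact mul_comm _ _
  rw [e1, abs_neg]
  refine (intervalIntegral.abs_integral_le_integral_abs hR.le).trans ?_
  apply intervalIntegral.integral_mono_on hR.le
  · exact ((hXc.mul (cont_inner (fun r θ => fderiv ℝ F (pt r θ)
      (Complex.exp ((θ : ℂ) * Complex.I))) hd (-π) π)).abs).intervalIntegrable _ _
  · exact (hXc.abs.mul (cont_inner (fun r θ => ‖fderiv ℝ F (pt r θ)‖)
      ((hfc.comp pt_cont).norm) (-π) π)).intervalIntegrable _ _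
  · intro r _
    rw [abs_mul]
    refine mul_le_mul_of_nonneg_left ?_ (abs_nonneg _)
    refine (intervalIntegral.abs_integral_le_integral_abs hpi).trans ?_
    apply intervalIntegral.integral_mono_on hpi
    · have : Continuous (fun θ : ℝ => |fderiv ℝ F (pt r θ) (Complex.exp ((θ : ℂ) * Complex.I))|) :=
        (((hfc.comp (cont_pt_th r)).clm_apply (by fun_prop)).abs)
      exact this.intervalIntegrable _ _
    · exact ((hfc.comp (cont_pt_th r)).norm).intervalIntegrable _ _
    · intro θ _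
      have := ContinuousLinearMap.le_opNorm (fderiv ℝ F (pt r θ))
        (Complex.exp ((θ : ℂ) * Complex.I))
      rw [Complex.norm_exp_ofReal_mul_I, mul_one] at this
      exact this

lemma boundX (V : ℝ → ℝ) (R : ℝ) (Vpos : ∀ r ∈ Ico 0 R, 0 < V r)
    (Vanti : AntitoneOn V (Icc 0 R)) (VR : 0 ≤ V R) (h : ℝ → ℝ)
    (a b K : ℝ) (ha : 0 < a) (hab : a < b) (hb : b < R) (hz : ∀ s, s ∉ Ioo a b → h s = 0)
    (X : ℝ → ℝ) (hxc : Continuous (fun r => h r / (2 * π) - K * (V r ^ 2 * r)))
    (hX : ∀ r, HasDerivAt X (h r / (2 * π) - K * (V r ^ 2 * r)) r)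
    (X0 : X 0 = 0) (XR : X R = 0) :
    ∃ C, 0 ≤ C ∧ ∀ r ∈ Icc 0 R, |X r| ≤ C * (V r ^ 2 * r) := by
  have hXc : Continuous X := continuous_iff_continuousAt.2 fun r => (hX r).continuousAt
  have hR : 0 < R := by linarith
  obtain ⟨M, hM⟩ := isCompact_Icc.exists_bound_of_continuousOn (s := Icc a b)
    (f := X) hXc.continuousOn
  have hM0 : 0 ≤ M := (norm_nonneg _).trans (hM a ⟨le_rfl, hab.le⟩)
  have Va : 0 < V a := Vpos a ⟨ha.le, by linarith⟩
  have Vb : 0 < V b := Vpos b ⟨by linarith, hb⟩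
  have V0 : 0 < V 0 := Vpos 0 ⟨le_rfl, hR⟩
  have Vnn : ∀ r ∈ Icc 0 R, 0 ≤ V r := by
    intro r hr
    exact VR.trans (Vanti hr ⟨hR.le, le_rfl⟩ hr.2)
  set C1 := |K| * V 0 ^ 2 * a / V a ^ 2 with hC1
  set C2 := M / (V b ^ 2 * a) with hC2
  set C3 := |K| * R ^ 2 / b with hC3
  have hC1n : 0 ≤ C1 := by positivity
  have hC2n : 0 ≤ C2 := by positivity
  have hC3n : 0 ≤ C3 := by
    have : 0 < b := by linarith
    positivity
  refine ⟨C1 + C2 + C3, by positivity, fun r hr => ?_⟩
  have hw : 0 ≤ V r ^ 2 * r := mul_nonneg (sq_nonneg _) hr.1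
  have ftc : ∀ p q : ℝ, ∫ s in p..q, (h s / (2 * π) - K * (V s ^ 2 * s)) = X q - X p :=
    fun p q => intervalIntegral.integral_eq_sub_of_hasDerivAt (fun s _ => hX s)
      (hxc.intervalIntegrable _ _)
  rcases le_total r a with hra | hra
  · have h1 : |X r| ≤ C1 * (V r ^ 2 * r) := by
      have e := ftc 0 r
      rw [X0, sub_zero] at e
      rw [← e]
      have h3 := intervalIntegral.norm_integral_le_of_norm_le_const (a := 0) (b := r)
        (f := fun s => h s / (2 * π) - K * (V s ^ 2 * s)) (C := |K| * (V 0 ^ 2 * a)) (by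
          intro s hs
          rw [uIoc_of_le hr.1] at hs
          have hs0 : h s = 0 := hz s (fun hh => by linarith [hh.1, hs.2])
          rw [hs0, zero_div, zero_sub, norm_neg, norm_mul, Real.norm_eq_abs, Real.norm_eq_abs]
          refine mul_le_mul_of_nonneg_left ?_ (abs_nonneg _)
          rw [abs_of_nonneg (mul_nonneg (sq_nonneg _) hs.1.le)]
          have hsR : s ∈ Icc 0 R := ⟨hs.1.le, by linarith [hs.2]⟩
          have : V s ≤ V 0 := Vanti ⟨le_rfl, hR.le⟩ hsR hs.1.le
          have h5 : V s ^ 2 ≤ V 0 ^ 2 := pow_le_pow_left₀ (Vnn s hsR) this 2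
          exact mul_le_mul h5 (by linarith [hs.2]) hs.1.le (sq_nonneg _))
      rw [Real.norm_eq_abs, sub_zero, abs_of_nonneg hr.1] at h3
      refine h3.trans ?_
      have h6 : V a ^ 2 ≤ V r ^ 2 :=
        pow_le_pow_left₀ Va.le (Vanti hr ⟨ha.le, by linarith⟩ hra) 2
      have h7 : C1 * V a ^ 2 = |K| * V 0 ^ 2 * a := by
        rw [hC1]; field_simp
      calc |K| * (V 0 ^ 2 * a) * r = (C1 * V a ^ 2) * r := by rw [h7]; ring
        _ ≤ (C1 * V r ^ 2) * r :=
            mul_le_mul_of_nonneg_right (mul_le_mul_of_nonneg_left h6 hC1n) hr.1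
        _ = C1 * (V r ^ 2 * r) := by ring
    have : 0 ≤ C2 * (V r ^ 2 * r) := mul_nonneg hC2n hw
    have : 0 ≤ C3 * (V r ^ 2 * r) := mul_nonneg hC3n hw
    linarith
  rcases le_total r b with hrb | hrb
  · have h1 : |X r| ≤ C2 * (V r ^ 2 * r) := by
      have h3 := hM r ⟨hra, hrb⟩
      rw [Real.norm_eq_abs] at h3
      refine h3.trans ?_
      have h6 : V b ^ 2 ≤ V r ^ 2 :=
        pow_le_pow_left₀ Vb.le (Vanti hr ⟨by linarith, hb.le⟩ hrb) 2
      have h7 : V b ^ 2 * a ≤ V r ^ 2 * r := mul_le_mul h6 hra ha.le (sq_nonneg _)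
      have h8 : C2 * (V b ^ 2 * a) = M := by
        rw [hC2]; field_simp
      calc M = C2 * (V b ^ 2 * a) := h8.symm
        _ ≤ C2 * (V r ^ 2 * r) := mul_le_mul_of_nonneg_left h7 hC2n
    have : 0 ≤ C1 * (V r ^ 2 * r) := mul_nonneg hC1n hw
    have : 0 ≤ C3 * (V r ^ 2 * r) := mul_nonneg hC3n hw
    linarith
  · have h1 : |X r| ≤ C3 * (V r ^ 2 * r) := by
      have e := ftc r R
      rw [XR, zero_sub] at e
      have h3 := intervalIntegral.norm_integral_le_of_norm_le_const (a := r) (b := R)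
        (f := fun s => h s / (2 * π) - K * (V s ^ 2 * s)) (C := |K| * (V r ^ 2 * R)) (by
          intro s hs
          rw [uIoc_of_le hr.2] at hs
          have hs0 : h s = 0 := hz s (fun hh => by linarith [hh.2, hs.1])
          rw [hs0, zero_div, zero_sub, norm_neg, norm_mul, Real.norm_eq_abs, Real.norm_eq_abs]
          refine mul_le_mul_of_nonneg_left ?_ (abs_nonneg _)
          have hs0' : 0 ≤ s := by linarith [hs.1, hr.1]
          rw [abs_of_nonneg (mul_nonneg (sq_nonneg _) hs0')]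
          have hsR : s ∈ Icc 0 R := ⟨hs0', hs.2⟩
          have : V s ≤ V r := Vanti hr hsR hs.1.le
          have h5 : V s ^ 2 ≤ V r ^ 2 := pow_le_pow_left₀ (Vnn s hsR) this 2
          exact mul_le_mul h5 hs.2 hs0' (sq_nonneg _))
      rw [e, norm_neg, Real.norm_eq_abs, abs_of_nonneg (by linarith [hr.2] : 0 ≤ R - r)] at h3
      refine h3.trans ?_
      have hb0 : 0 < b := by linarith
      have h8 : C3 * b = |K| * R ^ 2 := by
        rw [hC3]; field_simp
      have h9 : R - r ≤ R := by linarith [hr.1]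
      calc |K| * (V r ^ 2 * R) * (R - r) ≤ |K| * (V r ^ 2 * R) * R :=
            mul_le_mul_of_nonneg_left h9 (by positivity)
        _ = (|K| * R ^ 2) * V r ^ 2 := by ring
        _ = (C3 * b) * V r ^ 2 := by rw [h8]
        _ ≤ (C3 * r) * V r ^ 2 :=
            mul_le_mul_of_nonneg_right (mul_le_mul_of_nonneg_left hrb hC3n) (sq_nonneg _)
        _ = C3 * (V r ^ 2 * r) := by ring
    have : 0 ≤ C1 * (V r ^ 2 * r) := mul_nonneg hC1n hw
    have : 0 ≤ C2 * (V r ^ 2 * r) := mul_nonneg hC2n hw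
    linarith

lemma ext_int (f : ℝ → ℝ) (R a b : ℝ) (ha : 0 < a) (hab : a < b) (hb : b < R)
    (hz : ∀ s, s ∉ Ioo a b → f s = 0) :
    ∫ s in a..b, f s = ∫ s in (0 : ℝ)..R, f s := by
  rw [intervalIntegral.integral_of_le hab.le, intervalIntegral.integral_of_le (by linarith)]
  symm
  apply setIntegral_eq_of_subset_of_forall_sdiff_eq_zero measurableSet_Ioc
  · intro s hs
    exact ⟨by linarith [hs.1], by linarith [hs.2]⟩
  · intro s hs
    exact hz s fun hh => hs.2 ⟨hh.1, hh.2.le⟩

end S4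

open S4 in
theorem stmtB2 (_h0 : StmtA0) (h1 : StmtA1) : StmtB2 := by
  intro T hT h a b K hh ha hab hb hz hK
  obtain ⟨hG, -, -, -⟩ := h1
  set R := 2 * √T with hRdef
  have hsT : 0 < √T := Real.sqrt_pos.2 hT.pos
  have hR : 0 < R := by positivity
  have hR2 : R ^ 2 / 4 = T := by
    rw [hRdef, mul_pow, Real.sq_sqrt hT.pos.le]; ring
  have hp := Real.pi_pos
  have hpi : -π ≤ π := by linarith
  -- the profile
  set V : ℝ → ℝ := fun r => G 0 (r ^ 2 / 4) with hV
  have G0c : Continuous (G 0) := continuous_iff_continuousAt.2 fun t => (hG 0 t).continuousAt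
  have Vc : Continuous V := G0c.comp (by fun_prop)
  have uc : Continuous u := by
    unfold u
    exact G0c.comp (by fun_prop)
  have upt : ∀ r θ : ℝ, 0 ≤ r → u (pt r θ) = V r := by
    intro r θ hr
    rw [u, pt_norm r θ hr]
  have Vpos : ∀ r ∈ Ico 0 R, 0 < V r := by
    intro r hr
    apply hT.g_pos
    constructor
    · positivity
    · rw [← hR2]
      have : r ^ 2 < R ^ 2 := pow_lt_pow_left₀ hr.2 hr.1 (by norm_num)
      linarith
  have VR0 : V R = 0 := by
    simp only [hV, hR2, hT.zero]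
  have G0anti : AntitoneOn (G 0) (Icc 0 T) := by
    apply antitoneOn_of_deriv_nonpos (convex_Icc 0 T) G0c.continuousOn
      (fun t _ => (hG 0 t).differentiableAt.differentiableWithinAt)
    intro t ht
    rw [interior_Icc] at ht
    rw [(hG 0 t).deriv]
    exact (hT.g1_neg t ⟨ht.1.le, ht.2.le⟩).le
  have Vanti : AntitoneOn V (Icc 0 R) := by
    intro r hr s hs hrs
    apply G0anti
    · constructor
      · positivity
      · rw [← hR2]
        have : r ^ 2 ≤ R ^ 2 := pow_le_pow_left₀ hr.1 hr.2 2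
        linarith
    · constructor
      · positivity
      · rw [← hR2]
        have : s ^ 2 ≤ R ^ 2 := pow_le_pow_left₀ hs.1 hs.2 2
        linarith
    · have : r ^ 2 ≤ s ^ 2 := pow_le_pow_left₀ hr.1 hrs 2
      linarith
  -- the radial density
  set x : ℝ → ℝ := fun r => h r / (2 * π) - K * (V r ^ 2 * r) with hx
  have xc : Continuous x := by
    rw [hx]; fun_prop
  set X : ℝ → ℝ := fun r => ∫ s in (0 : ℝ)..r, x s with hX
  have hXd : ∀ r, HasDerivAt X (x r) r := fun r =>
    intervalIntegral.integral_hasDerivAt_right (xc.intervalIntegrable _ _)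
      xc.aestronglyMeasurable.stronglyMeasurableAtFilter xc.continuousAt
  have X0 : X 0 = 0 := by simp [hX]
  -- polar coordinates
  have polD : ∀ g : ℂ → ℝ, Continuous g → ∫ z in D T, g z
      = ∫ r in (0 : ℝ)..R, ∫ θ in (-π)..π, r * g (pt r θ) := fun g hg => polar g hg R hR
  have hu2 : ∫ z in D T, u z ^ 2 = ∫ r in (0 : ℝ)..R, 2 * π * (V r ^ 2 * r) := by
    rw [polD (fun z => u z ^ 2) (uc.pow 2)]
    refine intervalIntegral.integral_congr fun r hr => ?_
    rw [uIcc_of_le hR.le] at hr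
    simp only [upt r _ hr.1]
    rw [intervalIntegral.integral_const, smul_eq_mul]
    ring
  have XR : X R = 0 := by
    simp only [hX, hx]
    rw [intervalIntegral.integral_sub (Continuous.intervalIntegrable (by fun_prop) _ _)
      (Continuous.intervalIntegrable (by fun_prop) _ _),
      intervalIntegral.integral_div, intervalIntegral.integral_const_mul]
    rw [hu2, intervalIntegral.integral_const_mul, ext_int h R a b ha hab hb hz] at hK
    rw [← hK]
    field_simp
    ring
  obtain ⟨C2, hC2, hbd⟩ := boundX V R Vpos Vanti VR0.ge h a b K ha hab hb hz X xc hXd X0 XR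
  obtain ⟨M, hM⟩ := isCompact_Icc.exists_bound_of_continuousOn (s := Icc a b)
    (f := h) hh.continuousOn
  have hM0 : 0 ≤ M := (norm_nonneg _).trans (hM a ⟨le_rfl, hab.le⟩)
  have Vb : 0 < V b := Vpos b ⟨by linarith, hb⟩
  set C1 := M / V b ^ 2 with hC1
  have hC1n : 0 ≤ C1 := by positivity
  have hbh : ∀ r ∈ Icc 0 R, |h r| * r ≤ C1 * (V r ^ 2 * r) := by
    intro r hr
    by_cases hm : r ∈ Ioo a b
    · have h3 := hM r ⟨hm.1.le, hm.2.le⟩
      rw [Real.norm_eq_abs] at h3
      have h6 : V b ^ 2 ≤ V r ^ 2 :=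
        pow_le_pow_left₀ Vb.le (Vanti hr ⟨by linarith, hb.le⟩ hm.2.le) 2
      have h8 : C1 * V b ^ 2 = M := by
        rw [hC1]; field_simp
      have h9 : |h r| ≤ C1 * V r ^ 2 := h3.trans (h8.symm.le.trans
        (mul_le_mul_of_nonneg_left h6 hC1n))
      calc |h r| * r ≤ (C1 * V r ^ 2) * r := mul_le_mul_of_nonneg_right h9 hr.1
        _ = _ := by ring
    · rw [hz r hm, abs_zero, zero_mul]
      exact mul_nonneg hC1n (mul_nonneg (sq_nonneg _) hr.1)
  refine ⟨C1 + C2, by positivity, fun F hF => ?_⟩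
  obtain ⟨hFs, hFcs, hFt⟩ := hF
  have hFc : Continuous F := hFs.continuous
  have hfc : Continuous (fderiv ℝ F) := hFs.continuous_fderiv (by simp)
  have hF0 : ∀ z, z ∉ D T → F z = 0 := fun z hz => image_eq_zero_of_notMem_tsupport
    fun h => hz (hFt h)
  have hdF0 : ∀ z, z ∉ D T → fderiv ℝ F z = 0 := fun z hz =>
    image_eq_zero_of_notMem_tsupport fun h => hz (hFt (tsupport_fderiv_subset ℝ h))
  -- abbreviations
  set J : ℝ → ℝ := fun r => ∫ θ in (-π)..π, F (pt r θ) with hJ
  set N : ℝ → ℝ := fun r => ∫ θ in (-π)..π, ‖fderiv ℝ F (pt r θ)‖ with hN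
  have Jc : Continuous J := cont_inner (fun r θ => F (pt r θ)) (hFc.comp pt_cont) _ _
  have Nc : Continuous N := cont_inner (fun r θ => ‖fderiv ℝ F (pt r θ)‖)
    ((hfc.comp pt_cont).norm) _ _
  have N0 : ∀ r, 0 ≤ N r := fun r => by
    simp only [hN]
    exact intervalIntegral.integral_nonneg hpi fun _ _ => norm_nonneg _
  have I1 : ∫ z, u z ^ 2 * F z = ∫ r in (0 : ℝ)..R, (V r ^ 2 * r) * J r := by
    rw [← setIntegral_eq_integral_of_forall_compl_eq_zero (s := D T)
      (fun z hz => by rw [hF0 z hz, mul_zero]), polD (fun z => u z ^ 2 * F z) ((uc.pow 2).mul hFc)]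
    refine intervalIntegral.integral_congr fun r hr => ?_
    rw [uIcc_of_le hR.le] at hr
    simp only [upt r _ hr.1, hJ]
    rw [← intervalIntegral.integral_const_mul]
    refine intervalIntegral.integral_congr fun θ _ => ?_
    ring
  have I2 : ∫ z, u z ^ 2 * ‖fderiv ℝ F z‖ = ∫ r in (0 : ℝ)..R, (V r ^ 2 * r) * N r := by
    rw [← setIntegral_eq_integral_of_forall_compl_eq_zero (s := D T)
      (fun z hz => by rw [hdF0 z hz, norm_zero, mul_zero]), polD (fun z => u z ^ 2 * ‖fderiv ℝ F z‖) ((uc.pow 2).mul hfc.norm)]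
    refine intervalIntegral.integral_congr fun r hr => ?_
    rw [uIcc_of_le hR.le] at hr
    simp only [upt r _ hr.1, hN]
    rw [← intervalIntegral.integral_const_mul]
    refine intervalIntegral.integral_congr fun θ _ => ?_
    ring
  have I3 : ∫ s in a..b, h s * F (s : ℂ) = ∫ s in (0 : ℝ)..R, h s * F (s : ℂ) :=
    ext_int _ R a b ha hab hb fun s hs => by rw [hz s hs, zero_mul]
  have Frc : Continuous (fun s : ℝ => F (s : ℂ)) := hFc.comp Complex.continuous_ofReal
  have I4 : (∫ s in a..b, h s * F (s : ℂ)) - K * ∫ z, u z ^ 2 * F z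
      = (∫ r in (0 : ℝ)..R, h r / (2 * π) * (2 * π * F (r : ℂ) - J r))
        + ∫ r in (0 : ℝ)..R, x r * J r := by
    rw [I3, I1, ← intervalIntegral.integral_const_mul, ← intervalIntegral.integral_sub,
      ← intervalIntegral.integral_add]
    · refine intervalIntegral.integral_congr fun r _ => ?_
      simp only [hx]
      field_simp
      ring
    · exact Continuous.intervalIntegrable (by fun_prop) _ _
    · exact (xc.mul Jc).intervalIntegrable _ _
    · exact (hh.mul Frc).intervalIntegrable _ _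
    · exact Continuous.intervalIntegrable (by fun_prop) _ _
  have B1 : |∫ r in (0 : ℝ)..R, h r / (2 * π) * (2 * π * F (r : ℂ) - J r)|
      ≤ ∫ r in (0 : ℝ)..R, C1 * ((V r ^ 2 * r) * N r) := by
    refine (intervalIntegral.abs_integral_le_integral_abs hR.le).trans ?_
    apply intervalIntegral.integral_mono_on hR.le
    · exact Continuous.intervalIntegrable (by fun_prop) _ _
    · exact Continuous.intervalIntegrable (by fun_prop) _ _
    · intro r hr
      have h3 := angular F hFs r hr.1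
      rw [abs_mul, abs_div, abs_of_pos (by positivity : 0 < 2 * π)]
      calc |h r| / (2 * π) * |2 * π * F (r : ℂ) - J r|
          ≤ |h r| / (2 * π) * (2 * π * (r * N r)) :=
            mul_le_mul_of_nonneg_left h3 (by positivity)
        _ = (|h r| * r) * N r := by field_simp
        _ ≤ (C1 * (V r ^ 2 * r)) * N r := mul_le_mul_of_nonneg_right (hbh r hr) (N0 r)
        _ = _ := by ring
  have B2 : |∫ r in (0 : ℝ)..R, x r * J r| ≤ ∫ r in (0 : ℝ)..R, C2 * ((V r ^ 2 * r) * N r) := by
    have Xc : Continuous X := continuous_iff_continuousAt.2 fun r => (hXd r).continuousAt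
    refine (radial F hFs R hR x X xc hXd X0 XR).trans ?_
    apply intervalIntegral.integral_mono_on hR.le
    · exact (Xc.abs.mul Nc).intervalIntegrable _ _
    · exact Continuous.intervalIntegrable (by fun_prop) _ _
    · intro r hr
      calc |X r| * N r ≤ (C2 * (V r ^ 2 * r)) * N r :=
            mul_le_mul_of_nonneg_right (hbd r hr) (N0 r)
        _ = _ := by ring
  rw [I4, I2]
  refine (abs_add_le _ _).trans ?_
  rw [intervalIntegral.integral_const_mul] at B1 B2
  rw [add_mul]
  exact add_le_add B1 B2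

end Pool.Agent.R263.ST
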