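import Mathlib
import Pool.Agent.R263.ST.Defs

/-! # S5: measures touching the boundary (helper916) -/

set_option autoImplicit false

namespace Pool.Agent.R263.ST

open MeasureTheory Set Metric Topology
open scoped ContDiff ENNReal

theorem stmtC (h1 : StmtA1) (h2 : StmtA2) : StmtC := by
  intro T hT Gm t0 ht0 hGm hmax L hL
  have hTp := hT.pos
  -- the function `P`
  set P : ℝ → ℝ := fun t => t * G 1 t ^ 2 with hP
  have hPc : Continuous P := by
    have : Continuous (G 1) := continuous_iff_continuousAt.mpr fun t => (h1.1 1 t).continuousAt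
    exact continuous_id.mul (this.pow 2)
  obtain ⟨t1, ht1, hlt⟩ := hT.ex
  have hPT : P T < Gm := lt_of_lt_of_le hlt (hmax t1 ⟨ht1.1.le, ht1.2.le⟩)
  have hPT0 : 0 ≤ P T := mul_nonneg hTp.le (sq_nonneg _)
  set G' : ℝ := (P T + Gm) / 2 with hG'
  have hG'1 : P T < G' := by rw [hG']; linarith
  have hG'2 : G' < Gm := by rw [hG']; linarith
  have hG'0 : 0 ≤ G' := by linarith
  -- continuity at `T`
  have hev : ∀ᶠ t in 𝓝 T, P t < G' := hPc.continuousAt.eventually_lt continuousAt_const hG'1
  obtain ⟨δ, hδ, hball⟩ := Metric.eventually_nhds_iff.mp hev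
  set s1 : ℝ := max (T - δ / 2) (T / 2) with hs1
  have hs1T : s1 < T := by rw [hs1, max_lt_iff]; constructor <;> linarith
  have hs10 : 0 < s1 := lt_of_lt_of_le (by linarith : 0 < T / 2) (le_max_right _ _)
  have hPs : ∀ t, s1 ≤ t → t ≤ T → P t ≤ G' := by
    intro t h3 h4
    apply le_of_lt
    apply hball
    rw [Real.dist_eq, abs_lt]
    have := le_max_left (T - δ / 2) (T / 2)
    rw [← hs1] at this
    constructor <;> linarith
  set r1 : ℝ := 2 * √s1 with hr1
  set R : ℝ := 2 * √T with hR
  have hr1R : r1 < R := by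
    rw [hr1, hR]
    have := Real.sqrt_lt_sqrt hs10.le hs1T
    linarith
  have hr10 : 0 < r1 := by rw [hr1]; positivity
  -- the integrand
  set h : ℂ → ℝ := fun z => P (‖z‖ ^ 2 / 4) with hh
  have hgrad : ∀ z, ‖fderiv ℝ u z‖ ^ 2 = h z := fun z => h2.2.1 z
  have hhc : Continuous h := hPc.comp (by fun_prop)
  have hsq : ∀ z : ℂ, ‖z‖ ≤ R → ‖z‖ ^ 2 / 4 ≤ T := by
    intro z hz
    have h3 : ‖z‖ ^ 2 ≤ R ^ 2 := pow_le_pow_left₀ (norm_nonneg _) hz 2
    have h4 : R ^ 2 = 4 * T := by rw [hR, mul_pow, Real.sq_sqrt hTp.le]; norm_num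
    linarith
  have hb1 : ∀ z : ℂ, ‖z‖ ≤ R → h z ≤ Gm := fun z hz =>
    hmax _ ⟨by positivity, hsq z hz⟩
  have hb2 : ∀ z : ℂ, ‖z‖ ≤ R → r1 ≤ ‖z‖ → h z ≤ G' := by
    intro z hz hz'
    apply hPs _ _ (hsq z hz)
    have h3 : r1 ^ 2 ≤ ‖z‖ ^ 2 := pow_le_pow_left₀ hr10.le hz' 2
    have h4 : r1 ^ 2 = 4 * s1 := by rw [hr1, mul_pow, Real.sq_sqrt hs10.le]; norm_num
    linarith
  refine ⟨(Gm - G') * min L (R - r1), mul_pos (by linarith) (lt_min hL (by linarith)), ?_⟩
  intro μ hμ hne
  have : IsFiniteMeasure μ := ⟨lt_of_le_of_lt hμ.mass ENNReal.ofReal_lt_top⟩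
  set A : Set ℂ := {z | r1 ≤ ‖z‖} with hA
  have hAc : IsClosed A := isClosed_le continuous_const continuous_norm
  have hAm : MeasurableSet A := hAc.measurableSet
  have hfr : closure (D T) = closedBall 0 R := by
    unfold D
    exact closure_ball _ (by positivity)
  have hae : ∀ᵐ z ∂μ, ‖z‖ ≤ R := by
    have h3 := hμ.onClosure
    rw [hfr] at h3
    rw [ae_iff]
    have : {a : ℂ | ¬ ‖a‖ ≤ R} = (closedBall 0 R)ᶜ := by
      ext z; simp
    rw [this]; exact h3
  have hmass : μ.real univ ≤ L := by
    have := ENNReal.toReal_mono ENNReal.ofReal_ne_top hμ.mass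
    rwa [ENNReal.toReal_ofReal hL.le] at this
  have hAle : μ.real A ≤ μ.real univ := measureReal_mono (subset_univ _)
  -- the basic estimate
  have hint : ∫ z, ‖fderiv ℝ u z‖ ^ 2 ∂μ ≤ Gm * μ.real univ - (Gm - G') * μ.real A := by
    simp_rw [hgrad]
    have hg : ∫ z, (Gm - (Gm - G') * A.indicator (fun _ => (1 : ℝ)) z) ∂μ =
        Gm * μ.real univ - (Gm - G') * μ.real A := by
      have hi : Integrable (fun z => (Gm - G') * A.indicator (fun _ => (1 : ℝ)) z) μ :=
        ((integrable_const 1).indicator hAm).const_mul _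
      rw [integral_sub (integrable_const _) hi, integral_const, integral_const_mul,
        integral_indicator hAm, setIntegral_const, smul_eq_mul, smul_eq_mul, mul_one,
        mul_comm Gm]
    rw [← hg]
    apply integral_mono_of_nonneg
    · filter_upwards with z
      exact mul_nonneg (by positivity) (sq_nonneg _)
    · exact (integrable_const _).sub (((integrable_const 1).indicator hAm).const_mul _)
    · filter_upwards [hae] with z hz
      by_cases hzA : z ∈ A
      · rw [indicator_of_mem hzA]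
        have := hb2 z hz hzA
        linarith
      · rw [indicator_of_notMem hzA]
        have := hb1 z hz
        linarith
  have hmin1 : min L (R - r1) ≤ L := min_le_left _ _
  have hmin2 : min L (R - r1) ≤ R - r1 := min_le_right _ _
  have hGd : 0 < Gm - G' := by linarith
  by_cases hcase : μ.support ⊆ A
  · -- the support is contained in `A`
    have h3 : μ.real A = μ.real univ := by
      have h4 : μ Aᶜ = 0 :=
        measure_mono_null (compl_subset_compl.mpr hcase) Measure.measure_compl_support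
      have h5 : μ A = μ univ := by
        rw [← measure_add_measure_compl hAm, h4, add_zero]
      simp only [Measure.real, h5]
    rw [h3] at hint
    have h4 : Gm * μ.real univ - (Gm - G') * μ.real univ = G' * μ.real univ := by ring
    rw [h4] at hint
    have h5 : G' * μ.real univ ≤ G' * L := mul_le_mul_of_nonneg_left hmass hG'0
    have h6 : (Gm - G') * min L (R - r1) ≤ (Gm - G') * L :=
      mul_le_mul_of_nonneg_left hmin1 hGd.le
    linarith
  · -- the support goes from the boundary to the inside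
    rw [not_subset] at hcase
    obtain ⟨z1, hz1, hz1A⟩ := hcase
    obtain ⟨z0, hz0, hz0f⟩ := hne
    have hn0 : ‖z0‖ = R := by
      unfold D at hz0f
      rw [frontier_ball _ (by positivity)] at hz0f
      simpa using hz0f
    have hn1 : ‖z1‖ < r1 := by
      have : ¬ r1 ≤ ‖z1‖ := hz1A
      linarith
    have hconn : IsPreconnected ((fun z : ℂ => ‖z‖) '' μ.support) :=
      (hμ.conn.image _ continuous_norm.continuousOn).isPreconnected
    have hIcc : Icc ‖z1‖ ‖z0‖ ⊆ (fun z : ℂ => ‖z‖) '' μ.support :=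
      hconn.Icc_subset ⟨z1, hz1, rfl⟩ ⟨z0, hz0, rfl⟩
    have hsub : Icc r1 R ⊆ (fun z : ℂ => ‖z‖) '' (μ.support ∩ A) := by
      intro r hr
      have hr' : r ∈ Icc ‖z1‖ ‖z0‖ := ⟨by linarith [hr.1], by rw [hn0]; exact hr.2⟩
      obtain ⟨z, hz, hzr⟩ := hIcc hr'
      refine ⟨z, ⟨hz, ?_⟩, hzr⟩
      show r1 ≤ ‖z‖
      have : ‖z‖ = r := hzr
      rw [this]; exact hr.1
    have hH : ENNReal.ofReal (R - r1) ≤ μ A := by
      have h3 : (μH[1] : Measure ℝ) (Icc r1 R) ≤ (μH[1] : Measure ℂ) (μ.support ∩ A) := by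
        refine (measure_mono hsub).trans ?_
        have := (lipschitzWith_one_norm (E := ℂ)).hausdorffMeasure_image_le zero_le_one
          (μ.support ∩ A)
        simpa using this
      rw [hausdorffMeasure_real, Real.volume_Icc] at h3
      refine h3.trans ?_
      have h4 := hμ.ge A
      rw [Measure.restrict_apply hAm, inter_comm] at h4
      exact h4
    have hreal : R - r1 ≤ μ.real A := by
      have := ENNReal.toReal_mono (measure_ne_top μ A) hH
      rwa [ENNReal.toReal_ofReal (by linarith)] at this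
    have h5 : (Gm - G') * min L (R - r1) ≤ (Gm - G') * μ.real A :=
      mul_le_mul_of_nonneg_left (hmin2.trans hreal) hGd.le
    have h6 : Gm * μ.real univ ≤ Gm * L := mul_le_mul_of_nonneg_left hmass (by linarith)
    linarith

end Pool.Agent.R263.ST
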