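import Mathlib
import Pool.Agent.R263.ST.Defs

/-! # S6: the competitor measure on a segment is admissible (helper916) -/

set_option autoImplicit false

namespace Pool.Agent.R263.ST

open MeasureTheory Set Metric Topology
open scoped ContDiff ENNReal

namespace S6

theorem iso : Isometry (fun s : ℝ => (s : ℂ)) := Complex.isometry_ofReal

theorem meas : Measurable (fun s : ℝ => (s : ℂ)) := Complex.measurable_ofReal

theorem comp_apply (L a b : ℝ) (A : Set ℂ) (hA : MeasurableSet A) :
    comp L a b A = ENNReal.ofReal (L / (b - a)) * volume ((fun s : ℝ => (s : ℂ)) ⁻¹' A ∩ Icc a b) := by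
  unfold comp
  rw [Measure.smul_apply, smul_eq_mul, Measure.map_apply meas hA,
    Measure.restrict_apply (meas hA)]

theorem supp (L a b : ℝ) (hL : 0 < L) (hab : a < b) :
    (comp L a b).support = (fun s : ℝ => (s : ℂ)) '' Icc a b := by
  have hcl : IsClosed ((fun s : ℝ => (s : ℂ)) '' Icc a b) :=
    (isCompact_Icc.image iso.continuous).isClosed
  have hc : 0 < ENNReal.ofReal (L / (b - a)) := by
    rw [ENNReal.ofReal_pos]
    exact div_pos hL (by linarith)
  apply subset_antisymm
  · apply Measure.support_subset_of_isClosed hcl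
    rw [mem_ae_iff, comp_apply L a b _ hcl.measurableSet.compl]
    have : (fun s : ℝ => (s : ℂ)) ⁻¹' ((fun s : ℝ => (s : ℂ)) '' Icc a b)ᶜ ∩ Icc a b = ∅ := by
      ext s
      simp only [mem_inter_iff, mem_preimage, mem_compl_iff, mem_empty_iff_false, iff_false, not_and]
      intro h1 h2
      exact h1 ⟨s, h2, rfl⟩
    rw [this, measure_empty, mul_zero]
  · rintro _ ⟨s, hs, rfl⟩
    rw [Measure.mem_support_iff_forall]
    intro V hV
    obtain ⟨O, hOV, hO, hsO⟩ := _root_.mem_nhds_iff.mp hV
    refine lt_of_lt_of_le ?_ (measure_mono hOV)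
    rw [comp_apply L a b O hO.measurableSet]
    apply ENNReal.mul_pos hc.ne'
    have hO' : IsOpen ((fun s : ℝ => (s : ℂ)) ⁻¹' O) := hO.preimage iso.continuous
    obtain ⟨ε, hε, hball⟩ := Metric.isOpen_iff.mp hO' s hsO
    -- an interval of positive length
    have hsub : Ioo (max a (s - ε)) (min b (s + ε)) ⊆ (fun s : ℝ => (s : ℂ)) ⁻¹' O ∩ Icc a b := by
      intro t ht
      have h1 := lt_min_iff.mp ht.2
      have h2 := max_lt_iff.mp ht.1
      refine ⟨hball ?_, h2.1.le, h1.1.le⟩
      rw [Metric.mem_ball, Real.dist_eq, abs_lt]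
      constructor <;> linarith
    have hpos : 0 < volume (Ioo (max a (s - ε)) (min b (s + ε))) := by
      rw [Real.volume_Ioo, ENNReal.ofReal_pos]
      have h3 : max a (s - ε) < min b (s + ε) := by
        rw [max_lt_iff, lt_min_iff, lt_min_iff]
        refine ⟨⟨hab, ?_⟩, ?_, ?_⟩ <;> linarith [hs.1, hs.2]
      linarith
    exact (lt_of_lt_of_le hpos (measure_mono hsub)).ne'

end S6

open S6 in
theorem stmtD : StmtD := by
  intro T L a b hT hL ha hab hbT hbaL
  have hba : 0 < b - a := by linarith
  have hsT : 0 < 2 * √T := by positivity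
  have hsupp := supp L a b hL hab
  have hsub : (comp L a b).support ⊆ D T := by
    rw [hsupp]
    rintro _ ⟨s, hs, rfl⟩
    unfold D
    rw [mem_ball_zero_iff, Complex.norm_real, Real.norm_eq_abs, abs_of_pos (by linarith [hs.1])]
    linarith [hs.2]
  refine ⟨⟨?_, ?_, ?_, ?_⟩, hsub, ?_⟩
  · -- onClosure
    have h1 : (closure (D T))ᶜ ⊆ ((comp L a b).support)ᶜ :=
      compl_subset_compl.mpr (hsub.trans subset_closure)
    exact measure_mono_null h1 Measure.measure_compl_support
  · -- mass
    rw [comp_apply L a b _ MeasurableSet.univ, preimage_univ, univ_inter, Real.volume_Icc,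
      ← ENNReal.ofReal_mul (by positivity)]
    apply ENNReal.ofReal_le_ofReal
    rw [div_mul_cancel₀ _ hba.ne']
  · -- conn
    rw [hsupp]
    exact (isConnected_Icc hab.le).image _ iso.continuous.continuousOn
  · -- ge
    rw [hsupp]
    rw [Measure.le_iff]
    intro A hA
    have hcl : IsClosed ((fun s : ℝ => (s : ℂ)) '' Icc a b) :=
      (isCompact_Icc.image iso.continuous).isClosed
    rw [Measure.restrict_apply hA, comp_apply L a b A hA]
    have e1 : A ∩ (fun s : ℝ => (s : ℂ)) '' Icc a b =
        (fun s : ℝ => (s : ℂ)) '' ((fun s : ℝ => (s : ℂ)) ⁻¹' A ∩ Icc a b) := by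
      ext z
      constructor
      · rintro ⟨h1, s, hs, rfl⟩
        exact ⟨s, ⟨h1, hs⟩, rfl⟩
      · rintro ⟨s, ⟨h1, hs⟩, rfl⟩
        exact ⟨h1, s, hs, rfl⟩
    rw [e1, iso.hausdorffMeasure_image (Or.inl zero_le_one), hausdorffMeasure_real]
    have h2 : (1 : ENNReal) ≤ ENNReal.ofReal (L / (b - a)) := by
      rw [ENNReal.one_le_ofReal, le_div_iff₀ hba]
      linarith
    calc volume ((fun s : ℝ => (s : ℂ)) ⁻¹' A ∩ Icc a b)
        = 1 * volume ((fun s : ℝ => (s : ℂ)) ⁻¹' A ∩ Icc a b) := (one_mul _).symm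
      _ ≤ _ := mul_le_mul_left h2 _
  · -- integral
    intro F hF
    unfold comp
    rw [integral_smul_measure, integral_map meas.aemeasurable hF.aestronglyMeasurable,
      ENNReal.toReal_ofReal (by positivity), smul_eq_mul, intervalIntegral.integral_of_le hab.le,
      integral_Icc_eq_integral_Ioc]

end Pool.Agent.R263.ST
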