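import Mathlib
import Pool.Agent.R263.ST.Defs

namespace Pool.Agent.R263.ST

open MeasureTheory Set Metric
open scoped ContDiff ENNReal

/-! ## A smooth truncation -/

/-- Primitive of a shifted smooth step. -/
noncomputable def prim (s : ℝ) : ℝ := ∫ x in (0 : ℝ)..s, Real.smoothTransition (x - 1)

lemma cont_st : Continuous (fun x : ℝ => Real.smoothTransition (x - 1)) :=
  Real.smoothTransition.continuous.comp (continuous_id.sub continuous_const)

lemma prim_hasDerivAt (s : ℝ) : HasDerivAt prim (Real.smoothTransition (s - 1)) s := by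
  unfold prim
  exact intervalIntegral.integral_hasDerivAt_right (cont_st.intervalIntegrable _ _)
    (cont_st.stronglyMeasurableAtFilter _ _) cont_st.continuousAt

lemma prim_contDiff : ContDiff ℝ ∞ prim := by
  rw [contDiff_infty_iff_deriv]
  refine ⟨fun s => (prim_hasDerivAt s).differentiableAt, ?_⟩
  have : deriv prim = fun x : ℝ => Real.smoothTransition (x - 1) := by
    funext s; exact (prim_hasDerivAt s).deriv
  rw [this]
  exact (Real.smoothTransition.contDiff).comp (contDiff_id.sub contDiff_const)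

lemma prim_zero_of_le {s : ℝ} (h : s ≤ 1) : prim s = 0 := by
  unfold prim
  rw [intervalIntegral.integral_congr (g := fun _ => (0 : ℝ))]
  · simp
  · intro x hx
    have hx1 : x ≤ 1 := by
      rcases Set.mem_uIcc.1 hx with h1 | h1
      · linarith [h1.2]
      · linarith [h1.2]
    exact Real.smoothTransition.zero_of_nonpos (by linarith)

lemma prim_nonneg (s : ℝ) : 0 ≤ prim s := by
  rcases le_total s 1 with h | h
  · rw [prim_zero_of_le h]
  · unfold prim
    exact intervalIntegral.integral_nonneg (by linarith) fun x _ =>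
      Real.smoothTransition.nonneg _

lemma prim_le {s : ℝ} (h : 0 ≤ s) : prim s ≤ s := by
  unfold prim
  have := intervalIntegral.integral_mono_on (a := 0) (b := s) (μ := volume) h
    (f := fun x : ℝ => Real.smoothTransition (x - 1)) (g := fun _ => (1 : ℝ))
    (cont_st.intervalIntegrable _ _) (continuous_const.intervalIntegrable _ _)
    (fun x _ => Real.smoothTransition.le_one _)
  simpa using this

lemma prim_ge (s : ℝ) : s - 2 ≤ prim s := by
  rcases le_total s 2 with h | h
  · linarith [prim_nonneg s]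
  · unfold prim
    rw [← intervalIntegral.integral_add_adjacent_intervals (a := 0) (b := 2) (c := s)
      (cont_st.intervalIntegrable _ _) (cont_st.intervalIntegrable _ _)]
    have h1 : 0 ≤ ∫ x in (0:ℝ)..2, Real.smoothTransition (x - 1) :=
      intervalIntegral.integral_nonneg (by norm_num) fun x _ => Real.smoothTransition.nonneg _
    have h2 : ∫ x in (2:ℝ)..s, Real.smoothTransition (x - 1) = s - 2 := by
      rw [intervalIntegral.integral_congr (g := fun _ => (1 : ℝ))]
      · simp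
      · intro x hx
        rw [Set.uIcc_of_le h] at hx
        exact Real.smoothTransition.one_of_one_le (by linarith [hx.1])
    linarith

/-- The truncation at level `d`. -/
noncomputable def trunc (d s : ℝ) : ℝ := d * prim (s / d)

lemma trunc_contDiff (d : ℝ) : ContDiff ℝ ∞ (trunc d) := by
  unfold trunc
  exact contDiff_const.mul (prim_contDiff.comp (contDiff_id.div_const d))

lemma trunc_hasDerivAt {d : ℝ} (hd : 0 < d) (s : ℝ) :
    HasDerivAt (trunc d) (Real.smoothTransition (s / d - 1)) s := by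
  have h1 : HasDerivAt (fun x : ℝ => x / d) (1 / d) s := (hasDerivAt_id s).div_const d
  have h2 := ((prim_hasDerivAt (s / d)).comp s h1).const_mul d
  have h3 : d * (Real.smoothTransition (s / d - 1) * (1 / d)) = Real.smoothTransition (s / d - 1) := by
    field_simp
  rw [h3] at h2
  exact h2

lemma trunc_zero {d s : ℝ} (hd : 0 < d) (h : s ≤ d) : trunc d s = 0 := by
  unfold trunc
  rw [prim_zero_of_le ((div_le_one hd).2 h), mul_zero]

lemma trunc_nonneg {d : ℝ} (hd : 0 < d) (s : ℝ) : 0 ≤ trunc d s :=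
  mul_nonneg hd.le (prim_nonneg _)

lemma trunc_le {d s : ℝ} (hd : 0 < d) (h : 0 ≤ s) : trunc d s ≤ s := by
  unfold trunc
  have := mul_le_mul_of_nonneg_left (prim_le (div_nonneg h hd.le)) hd.le
  rwa [mul_div_cancel₀ _ hd.ne'] at this

lemma trunc_ge {d : ℝ} (hd : 0 < d) (s : ℝ) : s - 2 * d ≤ trunc d s := by
  unfold trunc
  have := mul_le_mul_of_nonneg_left (prim_ge (s / d)) hd.le
  rw [mul_sub, mul_div_cancel₀ _ hd.ne'] at this
  linarith

lemma trunc_sq {d s : ℝ} (hd : 0 < d) (hs : 0 ≤ s) : s ^ 2 - 4 * d * s ≤ trunc d s ^ 2 := by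
  have h1 := trunc_ge hd s
  have h2 := trunc_nonneg hd s
  rcases le_total s (2 * d) with h | h
  · nlinarith
  · nlinarith


/-! ## The test function -/

/-- The truncated eigenfunction. -/
noncomputable def vd (T d : ℝ) : ℂ → ℝ := (D T).indicator (fun z => trunc d (u z))

/-- Its carrier. -/
def carr (T d : ℝ) : Set ℂ := closedBall 0 (2 * √T) ∩ u ⁻¹' Ici d

lemma isOpen_D (T : ℝ) : IsOpen (D T) := isOpen_ball

lemma mem_D {T : ℝ} {z : ℂ} : z ∈ D T ↔ ‖z‖ < 2 * √T := by
  unfold D; rw [mem_ball_zero_iff]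

lemma sq_div_lt {T : ℝ} (hT : 0 < T) {z : ℂ} (hz : z ∈ D T) : ‖z‖ ^ 2 / 4 < T := by
  have h1 := mem_D.1 hz
  have h2 : ‖z‖ ^ 2 < (2 * √T) ^ 2 := by
    have := norm_nonneg z
    nlinarith [Real.sqrt_nonneg T]
  rw [mul_pow, Real.sq_sqrt hT.le] at h2
  linarith

lemma u_pos {T : ℝ} (hg : Good T) {z : ℂ} (hz : z ∈ D T) : 0 < u z := by
  unfold u
  exact hg.g_pos _ ⟨by positivity, sq_div_lt hg.pos hz⟩

lemma u_bdry {T : ℝ} (hg : Good T) {z : ℂ} (hz : ‖z‖ = 2 * √T) : u z = 0 := by
  unfold u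
  rw [hz, mul_pow, Real.sq_sqrt hg.pos.le]
  have : (2 : ℝ) ^ 2 * T / 4 = T := by ring
  rw [this, hg.zero]

lemma carr_sub {T d : ℝ} (hg : Good T) (hd : 0 < d) : carr T d ⊆ D T := by
  intro z hz
  have h1 : ‖z‖ ≤ 2 * √T := by simpa using hz.1
  have h2 : d ≤ u z := hz.2
  rcases lt_or_eq_of_le h1 with h | h
  · exact mem_D.2 h
  · rw [u_bdry hg h] at h2; linarith

lemma carr_compact {T d : ℝ} (hu : Continuous u) : IsCompact (carr T d) :=
  (isCompact_closedBall _ _).inter_right (isClosed_Ici.preimage hu)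

lemma vd_zero {T d : ℝ} (hd : 0 < d) {z : ℂ} (hz : z ∉ carr T d) : vd T d z = 0 := by
  unfold vd
  by_cases h : z ∈ D T
  · rw [indicator_of_mem h]
    have h1 : z ∈ closedBall (0 : ℂ) (2 * √T) := by
      have := mem_D.1 h
      simpa using this.le
    have h2 : ¬ d ≤ u z := fun h3 => hz ⟨h1, h3⟩
    exact trunc_zero hd (not_le.1 h2).le
  · rw [indicator_of_notMem h]

lemma vd_eventually {T d : ℝ} {z : ℂ} (hz : z ∈ D T) :
    vd T d =ᶠ[nhds z] fun y => trunc d (u y) := by
  filter_upwards [(isOpen_D T).mem_nhds hz] with y hy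
  unfold vd
  rw [indicator_of_mem hy]

lemma vd_eventually_zero {T d : ℝ} (hu : Continuous u) (hd : 0 < d) {z : ℂ}
    (hz : z ∉ carr T d) : vd T d =ᶠ[nhds z] fun _ => 0 := by
  filter_upwards [(carr_compact hu).isClosed.isOpen_compl.mem_nhds hz] with y hy
  exact vd_zero hd hy

lemma vd_contDiff {T d : ℝ} (hg : Good T) (hu : ContDiff ℝ ∞ u) (hd : 0 < d) :
    ContDiff ℝ ∞ (vd T d) := by
  rw [contDiff_iff_contDiffAt]
  intro z
  by_cases hz : z ∈ D T
  · exact (((trunc_contDiff d).comp hu).contDiffAt).congr_of_eventuallyEq (vd_eventually hz)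
  · have hz2 : z ∉ carr T d := fun h => hz (carr_sub hg hd h)
    exact contDiffAt_const.congr_of_eventuallyEq (vd_eventually_zero hu.continuous hd hz2)

lemma vd_supp {T d : ℝ} (hu : Continuous u) (hd : 0 < d) : tsupport (vd T d) ⊆ carr T d := by
  refine closure_minimal ?_ (carr_compact hu).isClosed
  intro z hz
  by_contra h
  exact hz (vd_zero hd h)

lemma vd_test {T d : ℝ} (hg : Good T) (hu : ContDiff ℝ ∞ u) (hd : 0 < d) :
    Test (D T) (vd T d) :=
  ⟨vd_contDiff hg hu hd,
    (carr_compact hu.continuous).of_isClosed_subset (isClosed_tsupport _)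
      (vd_supp hu.continuous hd),
    (vd_supp hu.continuous hd).trans (carr_sub hg hd)⟩

lemma vd_fderiv {T d : ℝ} (hg : Good T) (hu : ContDiff ℝ ∞ u) (hd : 0 < d) (z : ℂ) :
    ∃ c : ℝ, 0 ≤ c ∧ c ≤ 1 ∧ fderiv ℝ (vd T d) z = c • fderiv ℝ u z ∧ (z ∉ D T → c = 0) := by
  by_cases hz : z ∈ D T
  · refine ⟨Real.smoothTransition (u z / d - 1), Real.smoothTransition.nonneg _,
      Real.smoothTransition.le_one _, ?_, fun h => absurd hz h⟩
    rw [(vd_eventually hz).fderiv_eq]
    have h1 : HasFDerivAt u (fderiv ℝ u z) z :=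
      (hu.differentiable (by simp) z).hasFDerivAt
    exact ((trunc_hasDerivAt hd (u z)).comp_hasFDerivAt z h1).fderiv
  · refine ⟨0, le_rfl, zero_le_one, ?_, fun _ => rfl⟩
    have hz2 : z ∉ carr T d := fun h => hz (carr_sub hg hd h)
    rw [(vd_eventually_zero hu.continuous hd hz2).fderiv_eq]
    simp

lemma vd_bounds {T d : ℝ} (hg : Good T) (hd : 0 < d) (z : ℂ) (hz : z ∈ D T) :
    0 ≤ vd T d z ∧ vd T d z ≤ u z ∧ u z ^ 2 - 4 * d * u z ≤ vd T d z ^ 2 := by
  have hp := u_pos hg hz
  unfold vd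
  rw [indicator_of_mem hz]
  exact ⟨trunc_nonneg hd _, trunc_le hd hp.le, trunc_sq hd hp.le⟩


/-! ## The integrals -/

lemma intOn {T : ℝ} {f : ℂ → ℝ} (hf : Continuous f) : IntegrableOn f (D T) volume :=
  (hf.continuousOn.integrableOn_compact (isCompact_closedBall (0 : ℂ) (2 * √T))).mono_set
    ball_subset_closedBall

lemma dirichlet_le {T d : ℝ} (h0 : StmtA0) (h2 : StmtA2) (hg : Good T) (hd : 0 < d) :
    ∫ z in D T, ‖fderiv ℝ (vd T d) z‖ ^ 2 ≤ ∫ z in D T, u z ^ 2 := by
  obtain ⟨hu, -, hweak⟩ := h2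
  have hv := vd_contDiff hg hu hd
  have hvc : HasCompactSupport (vd T d) := (vd_test hg hu hd).2.1
  have hfu : Continuous (fderiv ℝ u) := hu.continuous_fderiv (by simp)
  have hfv : Continuous (fderiv ℝ (vd T d)) := hv.continuous_fderiv (by simp)
  set q : ℂ → ℝ := fun z => fderiv ℝ u z 1 * fderiv ℝ (vd T d) z 1
    + fderiv ℝ u z Complex.I * fderiv ℝ (vd T d) z Complex.I with hq
  have hqc : Continuous q :=
    ((hfu.clm_apply continuous_const).mul (hfv.clm_apply continuous_const)).add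
      ((hfu.clm_apply continuous_const).mul (hfv.clm_apply continuous_const))
  have hpt : ∀ z, ‖fderiv ℝ (vd T d) z‖ ^ 2 ≤ q z := by
    intro z
    obtain ⟨c, hc0, hc1, hc, -⟩ := vd_fderiv hg hu hd z
    have e1 : q z = c * ‖fderiv ℝ u z‖ ^ 2 := by
      rw [hq]
      simp only [hc, h0 (fderiv ℝ u z), smul_apply, smul_eq_mul]
      ring
    rw [e1, hc, norm_smul, mul_pow, Real.norm_eq_abs, sq_abs]
    have : c ^ 2 ≤ c := by nlinarith
    exact mul_le_mul_of_nonneg_right this (by positivity)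
  have hq0 : ∀ z, z ∉ D T → q z = 0 := by
    intro z hz
    obtain ⟨c, -, -, hc, hc2⟩ := vd_fderiv hg hu hd z
    rw [hq]
    simp [hc, hc2 hz]
  have hv0 : ∀ z, z ∉ D T → u z * vd T d z = 0 := by
    intro z hz
    unfold vd
    rw [indicator_of_notMem hz, mul_zero]
  calc ∫ z in D T, ‖fderiv ℝ (vd T d) z‖ ^ 2
      ≤ ∫ z in D T, q z := by
        refine integral_mono_of_nonneg (Filter.Eventually.of_forall fun z => by positivity)
          (intOn hqc) (Filter.Eventually.of_forall hpt)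
    _ = ∫ z, q z := setIntegral_eq_integral_of_forall_compl_eq_zero hq0
    _ = ∫ z, u z * vd T d z := hweak _ hv hvc
    _ = ∫ z in D T, u z * vd T d z := (setIntegral_eq_integral_of_forall_compl_eq_zero hv0).symm
    _ ≤ ∫ z in D T, u z ^ 2 := by
        refine setIntegral_mono_on (intOn (hu.continuous.mul hv.continuous))
          (intOn (hu.continuous.pow 2)) (isOpen_D T).measurableSet ?_
        intro z hz
        have h1 := u_pos hg hz
        have h2 := vd_bounds hg hd z hz
        nlinarith [h2.2.1]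

lemma denom_ge {T d : ℝ} (h2 : StmtA2) (hg : Good T) (hd : 0 < d) :
    (∫ z in D T, u z ^ 2) - 4 * d * ∫ z in D T, u z ≤ ∫ z in D T, vd T d z ^ 2 := by
  obtain ⟨hu, -, -⟩ := h2
  have hv := vd_contDiff hg hu hd
  have i1 : IntegrableOn (fun z => u z ^ 2) (D T) volume := intOn (hu.continuous.pow 2)
  have i2 : IntegrableOn (fun z => 4 * d * u z) (D T) volume :=
    intOn (continuous_const.mul hu.continuous)
  have i3 : IntegrableOn (fun z => vd T d z ^ 2) (D T) volume := intOn (hv.continuous.pow 2)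
  rw [← integral_const_mul, ← integral_sub i1 i2]
  refine setIntegral_mono_on (i1.sub i2) i3 (isOpen_D T).measurableSet ?_
  intro z hz
  exact (vd_bounds hg hd z hz).2.2

lemma usq_pos {T : ℝ} (h2 : StmtA2) (hg : Good T) : 0 < ∫ z in D T, u z ^ 2 := by
  obtain ⟨hu, -, -⟩ := h2
  have i1 : IntegrableOn (fun z => u z ^ 2) (D T) volume := intOn (hu.continuous.pow 2)
  rw [setIntegral_pos_iff_support_of_nonneg_ae
    (Filter.Eventually.of_forall fun z => by positivity) i1]
  have h1 : D T ⊆ Function.support (fun z => u z ^ 2) ∩ D T := fun z hz =>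
    ⟨(pow_pos (u_pos hg hz) 2).ne', hz⟩
  have h3 : 0 < 2 * √T := by have := Real.sqrt_pos.2 hg.pos; positivity
  have h4 : 0 < volume (ball (0 : ℂ) (2 * √T)) := measure_ball_pos _ _ h3
  exact lt_of_lt_of_le h4 (measure_mono h1)

lemma mu_int {T L : ℝ} {μ : Measure ℂ} (ha : Adm (D T) L μ) {f : ℂ → ℝ} (hf : Continuous f) :
    Integrable f μ := by
  have : IsFiniteMeasure μ := ⟨lt_of_le_of_lt ha.mass ENNReal.ofReal_lt_top⟩
  have hK : IsCompact (closedBall (0 : ℂ) (2 * √T)) := isCompact_closedBall _ _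
  obtain ⟨C, hC⟩ := hK.exists_bound_of_continuousOn hf.continuousOn
  refine Integrable.of_bound hf.aestronglyMeasurable C ?_
  have h1 : ∀ᵐ z ∂μ, z ∈ closure (D T) := by
    have := ha.onClosure
    rw [← mem_ae_iff] at this
    exact this
  filter_upwards [h1] with z hz
  exact hC z (closure_ball_subset_closedBall hz)

lemma quot_nonneg {Ω : Set ℂ} {m : ℝ} (hm : 0 < m) (μ : Measure ℂ) (v : ℂ → ℝ) :
    0 ≤ quot Ω m μ v := by
  unfold quot
  refine div_nonneg (add_nonneg (integral_nonneg fun z => by positivity)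
    (mul_nonneg hm.le (integral_nonneg fun z => by positivity)))
    (integral_nonneg fun z => by positivity)

lemma lam_le {Ω : Set ℂ} {m : ℝ} (hm : 0 < m) (μ : Measure ℂ) {v : ℂ → ℝ} (hv : Test Ω v)
    (hv0 : v ≠ 0) : lam Ω m μ ≤ quot Ω m μ v := by
  unfold lam
  refine csInf_le ⟨0, ?_⟩ ⟨v, hv, hv0, rfl⟩
  rintro q ⟨w, -, -, rfl⟩
  exact quot_nonneg hm μ w

theorem stmtE (h0 : StmtA0) (_h1 : StmtA1) (h2 : StmtA2) : StmtE := by
  intro T hg L m hL hm μ ha
  have hu : ContDiff ℝ ∞ u := h2.1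
  set B := ∫ z in D T, u z ^ 2 with hB
  set S := ∫ z in D T, u z with hS
  set M := ∫ z, ‖fderiv ℝ u z‖ ^ 2 ∂μ with hM
  have hBpos : 0 < B := usq_pos h2 hg
  have hS0 : 0 ≤ S := setIntegral_nonneg (isOpen_D T).measurableSet fun z hz => (u_pos hg hz).le
  have hM0 : 0 ≤ M := integral_nonneg fun z => by positivity
  have hfu : Continuous (fderiv ℝ u) := hu.continuous_fderiv (by simp)
  have hlam0 : 0 ≤ lam (D T) m μ := by
    unfold lam
    refine Real.sInf_nonneg ?_
    rintro q ⟨w, -, -, rfl⟩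
    exact quot_nonneg hm μ w
  have key : ∀ d : ℝ, 0 < d → 4 * d * S < B → lam (D T) m μ * (B - 4 * d * S) ≤ B + m * M := by
    intro d hd hdS
    have hden : B - 4 * d * S ≤ ∫ z in D T, vd T d z ^ 2 := denom_ge h2 hg hd
    have hdenpos : 0 < ∫ z in D T, vd T d z ^ 2 := by linarith
    have hv0 : vd T d ≠ 0 := by
      intro h
      rw [h] at hdenpos
      simp at hdenpos
    have h3 := lam_le hm μ (vd_test hg hu hd) hv0
    unfold quot at h3
    rw [le_div_iff₀ hdenpos] at h3
    have h4 : ∫ z in D T, ‖fderiv ℝ (vd T d) z‖ ^ 2 ≤ B := dirichlet_le h0 h2 hg hd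
    have h5 : ∫ z, ‖fderiv ℝ (vd T d) z‖ ^ 2 ∂μ ≤ M := by
      refine integral_mono_of_nonneg (Filter.Eventually.of_forall fun z => by positivity)
        (mu_int ha (hfu.norm.pow 2)) (Filter.Eventually.of_forall fun z => ?_)
      obtain ⟨c, hc0, hc1, hc, -⟩ := vd_fderiv hg hu hd z
      show ‖fderiv ℝ (vd T d) z‖ ^ 2 ≤ ‖fderiv ℝ u z‖ ^ 2
      rw [hc, norm_smul, mul_pow, Real.norm_eq_abs, sq_abs]
      have : c ^ 2 ≤ 1 := by nlinarith
      nlinarith [sq_nonneg ‖fderiv ℝ u z‖]
    calc lam (D T) m μ * (B - 4 * d * S) ≤ lam (D T) m μ * ∫ z in D T, vd T d z ^ 2 :=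
          mul_le_mul_of_nonneg_left hden hlam0
      _ ≤ _ := h3
      _ ≤ B + m * M := by
          have := mul_le_mul_of_nonneg_left h5 hm.le
          linarith
  have hlim : lam (D T) m μ * B ≤ B + m * M := by
    have ht : Filter.Tendsto (fun d : ℝ => lam (D T) m μ * (B - 4 * d * S))
        (nhdsWithin 0 (Ioi 0)) (nhds (lam (D T) m μ * (B - 4 * 0 * S))) := by
      have hc : Continuous (fun d : ℝ => lam (D T) m μ * (B - 4 * d * S)) := by fun_prop
      exact (hc.tendsto 0).mono_left nhdsWithin_le_nhds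
    have ht2 : Filter.Tendsto (fun d : ℝ => 4 * d * S) (nhdsWithin 0 (Ioi 0))
        (nhds (4 * 0 * S)) := by
      have hc : Continuous (fun d : ℝ => 4 * d * S) := by fun_prop
      exact (hc.tendsto 0).mono_left nhdsWithin_le_nhds
    have ev1 : ∀ᶠ d : ℝ in nhdsWithin 0 (Ioi 0), 4 * d * S < B := by
      refine ht2.eventually (gt_mem_nhds ?_)
      simpa using hBpos
    have ev2 : ∀ᶠ d : ℝ in nhdsWithin 0 (Ioi 0), lam (D T) m μ * (B - 4 * d * S) ≤ B + m * M := by
      filter_upwards [ev1, self_mem_nhdsWithin] with d hd1 hd2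
      exact key d hd2 hd1
    have := le_of_tendsto ht ev2
    simpa using this
  have : 1 + m * M / B = (B + m * M) / B := by field_simp
  rw [this, le_div_iff₀ hBpos]
  exact hlim

end Pool.Agent.R263.ST
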