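import Mathlib
import Pool.Agent.R263.ST.Defs

namespace Pool.Agent.R263.ST

open MeasureTheory Set Metric
open scoped ContDiff ENNReal

theorem s8_uT {T : ℝ} (hT : Good T) {z : ℂ} (hz : z ∈ D T) : 0 < u z := by
  have hz' : ‖z‖ < 2 * √T := by simpa [D] using hz
  apply hT.g_pos
  refine ⟨by positivity, ?_⟩
  have h1 : ‖z‖ ^ 2 < (2 * √T) ^ 2 := by
    have := norm_nonneg z
    gcongr
  have h2 : (√T) ^ 2 = T := Real.sq_sqrt hT.pos.le
  nlinarith

/-- existence of a nonzero test function -/
theorem s8_test {T : ℝ} (hT : 0 < T) : ∃ v : ℂ → ℝ, Test (D T) v ∧ v ≠ 0 := by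
  have hs : 0 < √T := Real.sqrt_pos.2 hT
  let b : ContDiffBump (0 : ℂ) := ⟨√T / 2, √T, by positivity, by linarith⟩
  refine ⟨fun z => b z, ⟨b.contDiff, b.hasCompactSupport, ?_⟩, ?_⟩
  · have : tsupport (fun z => b z) = closedBall (0 : ℂ) √T := b.tsupport_eq
    rw [this]
    exact closedBall_subset_ball (by linarith)
  · intro h
    have h1 : b (0 : ℂ) = 1 := b.one_of_mem_closedBall (by simp [b]; positivity)
    have h2 := congrFun h 0
    simp only [Pi.zero_apply] at h2
    rw [h1] at h2
    exact one_ne_zero h2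

theorem s8_int_u (h2 : StmtA2) {T : ℝ} (hT : Good T) : 0 < ∫ z in D T, u z ^ 2 := by
  have cu : Continuous u := h2.1.continuous
  have hpos : 0 < √T := Real.sqrt_pos.2 hT.pos
  have hi : IntegrableOn (fun z => u z ^ 2) (D T) := by
    apply IntegrableOn.mono_set _ (ball_subset_closedBall : D T ⊆ closedBall 0 (2 * √T))
    exact (cu.pow 2).continuousOn.integrableOn_compact (isCompact_closedBall _ _)
  rw [setIntegral_pos_iff_support_of_nonneg_ae]
  · have hsub : D T ⊆ Function.support (fun z => u z ^ 2) ∩ D T := by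
      intro z hz
      refine ⟨?_, hz⟩
      have := s8_uT hT hz
      simp only [Function.mem_support]
      positivity
    refine lt_of_lt_of_le ?_ (measure_mono hsub)
    exact measure_ball_pos _ _ (by positivity)
  · exact Filter.Eventually.of_forall fun z => sq_nonneg _
  · exact hi

theorem stmtLow (h0 : StmtA0) (h1 : StmtA1) (h2 : StmtA2) (h3 : StmtA3) (hB1 : StmtB1)
    (hB2 : StmtB2) (hD : StmtD) : StmtLow := by
  intro T hT L a b hL ha hab hb hbL φ hφ hsup hφ0 hφ1
  have hba : 0 < b - a := sub_pos.2 hab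
  obtain ⟨hu, hgrad, hweak⟩ := h2
  have cu : Continuous u := hu.continuous
  have huT : 0 < ∫ z in D T, u z ^ 2 := s8_int_u ⟨hu, hgrad, hweak⟩ hT
  -- the profile
  have hofR : ContDiff ℝ ∞ (fun s : ℝ => (s : ℂ)) := Complex.ofRealCLM.contDiff
  have hU : ContDiff ℝ ∞ U := hu.comp hofR
  have hU1 : ContDiff ℝ ∞ (deriv U) := ((contDiff_infty_iff_deriv (𝕜 := ℝ) (f := U)).1 hU).2
  have hg : ContDiff ℝ ∞ (fun x => φ x * deriv U x) := hφ.mul hU1
  have hg1 : ContDiff ℝ ∞ (deriv (fun x => φ x * deriv U x)) :=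
    ((contDiff_infty_iff_deriv (𝕜 := ℝ) (f := fun x => φ x * deriv U x)).1 hg).2
  have hφa : φ a = 0 :=
    image_eq_zero_of_notMem_tsupport (fun h => absurd (hsup h).1 (lt_irrefl _))
  have hφb : φ b = 0 :=
    image_eq_zero_of_notMem_tsupport (fun h => absurd (hsup h).2 (lt_irrefl _))
  have dU : ∀ s, HasDerivAt U (deriv U s) s := fun s =>
    (hU.differentiable (by simp) s).hasDerivAt
  have dg : ∀ s, HasDerivAt (fun x => φ x * deriv U x)
      (deriv (fun x => φ x * deriv U x) s) s := fun s =>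
    (hg.differentiable (by simp) s).hasDerivAt
  set g : ℝ → ℝ := fun x => φ x * deriv U x with hgdef
  have cU := hU.continuous
  have cU1 := hU1.continuous
  have cg1 := hg1.continuous
  have cg := hg.continuous
  have cφ := hφ.continuous
  set h : ℝ → ℝ := fun s => L / (b - a) * (-(U s) * deriv g s) with hh
  have ch : Continuous h := by rw [hh]; fun_prop
  have hz : ∀ s, s ∉ Ioo a b → h s = 0 := by
    intro s hs
    have hsg : tsupport g ⊆ tsupport φ := by
      have : g = φ * deriv U := rfl
      rw [this]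
      exact tsupport_mul_subset_left
    have : deriv g s = 0 := by
      by_contra hne
      exact hs (hsup (hsg (support_deriv_subset hne)))
    rw [hh]
    simp [this]
  -- integral of h
  have hIh : ∫ s in a..b, h s = L / (b - a) * ∫ s in a..b, φ s * deriv U s ^ 2 := by
    have hW : ∀ s, HasDerivAt (fun x => U x * g x) (deriv U s * g s + U s * deriv g s) s :=
      fun s => (dU s).mul (dg s)
    have hc : Continuous (fun s => deriv U s * g s + U s * deriv g s) := by fun_prop
    have hint : ∫ s in a..b, (deriv U s * g s + U s * deriv g s) = 0 := by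
      rw [intervalIntegral.integral_eq_sub_of_hasDerivAt (fun s _ => hW s)
        (hc.intervalIntegrable _ _)]
      simp [hgdef, hφa, hφb]
    rw [hh, intervalIntegral.integral_const_mul]
    congr 1
    have hc2 : Continuous (fun s => -(U s) * deriv g s) := by fun_prop
    calc ∫ s in a..b, -(U s) * deriv g s = (∫ s in a..b, -(U s) * deriv g s) +
          ∫ s in a..b, (deriv U s * g s + U s * deriv g s) := by rw [hint, add_zero]
      _ = ∫ s in a..b, (-(U s) * deriv g s + (deriv U s * g s + U s * deriv g s)) :=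
        (intervalIntegral.integral_add (hc2.intervalIntegrable _ _)
          (hc.intervalIntegrable _ _)).symm
      _ = ∫ s in a..b, φ s * deriv U s ^ 2 := by
        apply intervalIntegral.integral_congr
        intro s _
        simp only [hgdef]
        ring
  set K : ℝ := (L / (b - a) * ∫ s in a..b, φ s * deriv U s ^ 2) / ∫ z in D T, u z ^ 2 with hK
  have hKe : K * (∫ z in D T, u z ^ 2) = ∫ s in a..b, h s := by
    rw [hIh, hK]
    field_simp
  obtain ⟨C, hC0, hC⟩ := hB2 T hT h a b K ch ha hab hb hz hKe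
  refine ⟨C ^ 2, ?_⟩
  intro m hm
  apply le_csInf
  · obtain ⟨v, hv, hv0⟩ := s8_test hT.pos
    exact ⟨_, v, hv, hv0, rfl⟩
  rintro q ⟨v, ⟨hv, hvc, hvs⟩, hv0, rfl⟩
  -- v vanishes outside the disk
  have hvout : ∀ z, z ∉ D T → v z = 0 := fun z hz =>
    image_eq_zero_of_notMem_tsupport (fun h => hz (hvs h))
  have hvout' : ∀ z, z ∉ D T → fderiv ℝ v z = 0 := fun z hz => by
    by_contra hne
    exact hz (hvs (support_fderiv_subset ℝ hne))
  have cv : Continuous v := hv.continuous
  -- the quotient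
  set f : ℂ → ℝ := fun z => v z / u z with hf
  have hfu : ∀ z, u z * f z = v z := by
    intro z
    by_cases hz : z ∈ D T
    · have := (s8_uT hT hz).ne'
      simp only [hf]
      field_simp
    · simp [hf, hvout z hz]
  have hfv : tsupport f ⊆ tsupport v := by
    apply closure_mono
    intro z hz
    simp only [hf, Function.mem_support] at hz ⊢
    intro h
    exact hz (by rw [h, zero_div])
  have hfs : ContDiff ℝ ∞ f := by
    rw [contDiff_iff_contDiffAt]
    intro z
    by_cases hz : z ∈ D T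
    · exact hv.contDiffAt.div hu.contDiffAt (s8_uT hT hz).ne'
    · have hz' : z ∉ tsupport f := fun h => hz (hvs (hfv h))
      have : f =ᶠ[nhds z] fun _ => 0 := notMem_tsupport_iff_eventuallyEq.1 hz'
      exact contDiffAt_const.congr_of_eventuallyEq this
  have hfc : HasCompactSupport f := hvc.of_isClosed_subset (isClosed_tsupport _) hfv
  have cf : Continuous f := hfs.continuous
  have cdf : Continuous (fun z => fderiv ℝ f z) := hfs.continuous_fderiv (by simp)
  have cdv : Continuous (fun z => fderiv ℝ v z) := hv.continuous_fderiv (by simp)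
  have hFT : Test (D T) (fun z => f z ^ 2) := by
    refine ⟨hfs.pow 2, ?_, ?_⟩
    · refine hfc.of_isClosed_subset (isClosed_tsupport _) ?_
      apply closure_mono
      intro z hz h
      exact hz (by simp only [h]; norm_num)
    · refine subset_trans ?_ (hfv.trans hvs)
      apply closure_mono
      intro z hz h
      exact hz (by simp only [h]; norm_num)
  have hB := hC _ hFT
  -- set integrals are integrals
  have e1 : ∫ z in D T, ‖fderiv ℝ v z‖ ^ 2 = ∫ z, ‖fderiv ℝ v z‖ ^ 2 :=
    setIntegral_eq_integral_of_forall_compl_eq_zero (fun z hz => by simp [hvout' z hz])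
  have e2 : ∫ z in D T, v z ^ 2 = ∫ z, v z ^ 2 :=
    setIntegral_eq_integral_of_forall_compl_eq_zero (fun z hz => by simp [hvout z hz])
  have e3 := h3 f hfs hfc
  simp only [hfu] at e3
  have e4 : ∫ z, u z ^ 2 * f z ^ 2 = ∫ z, v z ^ 2 := by
    congr 1
    funext z
    rw [← hfu z]; ring
  have hBpos : 0 < ∫ z, v z ^ 2 := by
    apply Continuous.integral_pos_of_hasCompactSupport_nonneg_nonzero (x := (Function.ne_iff.1 hv0).choose)
    · exact cv.pow 2
    · refine hvc.of_isClosed_subset (isClosed_tsupport _) ?_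
      apply closure_mono
      intro z hz h
      exact hz (by simp only [h]; norm_num)
    · intro z; positivity
    · have := (Function.ne_iff.1 hv0).choose_spec
      simpa using this
  -- the measure term
  obtain ⟨-, -, hDi⟩ := hD T L a b hT.pos hL ha hab hb hbL
  have e5 : ∫ z, ‖fderiv ℝ v z‖ ^ 2 ∂(comp L a b)
      = L / (b - a) * ∫ s in a..b, ‖fderiv ℝ v (s : ℂ)‖ ^ 2 :=
    hDi (fun z => ‖fderiv ℝ v z‖ ^ 2) (cdv.norm.pow 2)
  have hder : ∀ s : ℝ, deriv (fun x : ℝ => U x * f (x : ℂ)) s = fderiv ℝ v (s : ℂ) 1 := by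
    intro s
    have hfun : (fun x : ℝ => U x * f (x : ℂ)) = fun x : ℝ => v (x : ℂ) := by
      funext x
      exact hfu x
    rw [hfun]
    have hd : HasDerivAt (fun x : ℝ => (x : ℂ)) 1 s := Complex.ofRealCLM.hasDerivAt
    have := (hv.differentiable (by simp) (s : ℂ)).hasFDerivAt.comp_hasDerivAt s hd
    exact this.deriv
  have e6 : ∫ s in a..b, (-(U s) * deriv g s) * f (s : ℂ) ^ 2
      ≤ ∫ s in a..b, ‖fderiv ℝ v (s : ℂ)‖ ^ 2 := by
    refine (hB1 a b U φ (fun s => f (s : ℂ)) hab hU hφ (hfs.comp hofR) hsup hφ0 hφ1).trans ?_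
    have cR : Continuous (fun s : ℝ => (s : ℂ)) := Complex.continuous_ofReal
    apply intervalIntegral.integral_mono_on hab.le
    · have : Continuous (fun s : ℝ => (deriv (fun x : ℝ => U x * f (x : ℂ)) s) ^ 2) := by
        simp only [hder]
        exact (((cdv.comp cR).clm_apply continuous_const).pow 2)
      exact this.intervalIntegrable _ _
    · exact ((cdv.comp cR).norm.pow 2).intervalIntegrable _ _
    · intro s _
      rw [hder s]
      have h1 := (fderiv ℝ v (s : ℂ)).le_opNorm 1
      rw [norm_one, mul_one, Real.norm_eq_abs] at h1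
      rw [← sq_abs]
      gcongr
  have e7 : ∫ s in a..b, h s * f (s : ℂ) ^ 2 ≤ ∫ z, ‖fderiv ℝ v z‖ ^ 2 ∂(comp L a b) := by
    rw [e5]
    have : ∫ s in a..b, h s * f (s : ℂ) ^ 2
        = L / (b - a) * ∫ s in a..b, (-(U s) * deriv g s) * f (s : ℂ) ^ 2 := by
      rw [← intervalIntegral.integral_const_mul]
      congr 1
      funext s
      simp only [hh]
      ring
    rw [this]
    have : 0 ≤ L / (b - a) := by positivity
    gcongr
  have e8 : K * (∫ z, v z ^ 2) - C * ∫ z, u z ^ 2 * ‖fderiv ℝ (fun z => f z ^ 2) z‖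
      ≤ ∫ z, ‖fderiv ℝ v z‖ ^ 2 ∂(comp L a b) := by
    have := (abs_le.1 hB).1
    rw [e4] at this
    linarith
  -- pointwise estimate
  have hdF : ∀ z, ‖fderiv ℝ (fun z => f z ^ 2) z‖ = 2 * |f z| * ‖fderiv ℝ f z‖ := by
    intro z
    have hd := ((hfs.differentiable (by simp) z).hasFDerivAt.pow 2).fderiv
    have hd' : fderiv ℝ (fun z => f z ^ 2) z = (2 * f z) • fderiv ℝ f z := by
      have h := hd
      simp only [Nat.add_one_sub_one, pow_one, nsmul_eq_mul, Nat.cast_ofNat] at h
      convert h using 1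
    rw [hd', norm_smul, Real.norm_eq_abs, abs_mul, abs_two]
  have hsup1 : ∀ z, z ∉ tsupport f → f z = 0 := fun z hz => image_eq_zero_of_notMem_tsupport hz
  have hsup2 : ∀ z, z ∉ tsupport f → fderiv ℝ f z = 0 := fun z hz => by
    by_contra hne
    exact hz (support_fderiv_subset ℝ hne)
  have i1 : Integrable (fun z => u z ^ 2 * ‖fderiv ℝ f z‖ ^ 2) := by
    apply Continuous.integrable_of_hasCompactSupport
    · exact (cu.pow 2).mul (cdf.norm.pow 2)
    · refine hfc.of_isClosed_subset (isClosed_tsupport _) ?_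
      apply closure_minimal _ (isClosed_tsupport _)
      intro z hz
      by_contra hzn
      exact hz (by simp [hsup2 z hzn])
  have i2 : Integrable (fun z => v z ^ 2) := by
    apply Continuous.integrable_of_hasCompactSupport
    · exact cv.pow 2
    · refine hvc.of_isClosed_subset (isClosed_tsupport _) ?_
      apply closure_mono
      intro z hz h
      exact hz (by simp only [h]; norm_num)
  have i3 : Integrable (fun z => u z ^ 2 * ‖fderiv ℝ (fun z => f z ^ 2) z‖) := by
    simp only [hdF]
    apply Continuous.integrable_of_hasCompactSupport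
    · exact (cu.pow 2).mul ((continuous_const.mul cf.abs).mul cdf.norm)
    · refine hfc.of_isClosed_subset (isClosed_tsupport _) ?_
      apply closure_minimal _ (isClosed_tsupport _)
      intro z hz
      by_contra hzn
      exact hz (by simp [hsup2 z hzn])
  have e9 : m * (C * ∫ z, u z ^ 2 * ‖fderiv ℝ (fun z => f z ^ 2) z‖)
      ≤ (∫ z, u z ^ 2 * ‖fderiv ℝ f z‖ ^ 2) + m ^ 2 * C ^ 2 * ∫ z, v z ^ 2 := by
    rw [← integral_const_mul, ← integral_const_mul, ← integral_const_mul,
      ← integral_add i1 (i2.const_mul _)]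
    apply integral_mono ((i3.const_mul _).const_mul _) (i1.add (i2.const_mul _))
    intro z
    simp only [hdF, Pi.add_apply]
    rw [← hfu z]
    have hk : 0 ≤ u z ^ 2 * (‖fderiv ℝ f z‖ - m * C * |f z|) ^ 2 := by positivity
    have hs : (u z * f z) ^ 2 = u z ^ 2 * |f z| ^ 2 := by rw [mul_pow, sq_abs]
    rw [hs]
    linarith [hk, show u z ^ 2 * (‖fderiv ℝ f z‖ - m * C * |f z|) ^ 2
      = u z ^ 2 * ‖fderiv ℝ f z‖ ^ 2 + m ^ 2 * C ^ 2 * (u z ^ 2 * |f z| ^ 2)
        - m * (C * (u z ^ 2 * (2 * |f z| * ‖fderiv ℝ f z‖))) by ring]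
  have e10 : ∫ z, ‖fderiv ℝ v z‖ ^ 2 = (∫ z, v z ^ 2) + ∫ z, u z ^ 2 * ‖fderiv ℝ f z‖ ^ 2 := by
    linarith
  unfold quot
  rw [e1, e2, e10, le_div_iff₀ hBpos]
  have e11 := mul_le_mul_of_nonneg_left e8 hm.le
  have e12 : 1 + m * (L / (b - a) * ∫ s in a..b, φ s * deriv U s ^ 2) / (∫ z in D T, u z ^ 2)
      = 1 + m * K := by
    rw [hK]; ring
  rw [e12]
  nlinarith [e9, e11]

end Pool.Agent.R263.ST
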